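import Pool.Agent.helper92.FV.ST

/-! # MP_51fbee_al, module CV : vanishing along a chain -/

namespace FV

universe u

variable {k : Type u} [Field k]

lemma CV_neg_right {M N : DGA k} (f : DGA.Hom M N) (G : Twist M) (n b : ℤ) (hb : b < 0) :
    (G.tens (DGMod.ofHom f)).Van n b := by
  intro x hx _
  have hx0 : x = 0 := by
    funext α
    have h1 : x α ∈ N.gr (n - G.n α) (b - G.j α) := hx α
    exact N.neg_right (by have := G.j_nonneg α; omega) h1
  exact ⟨0, AddSubgroup.zero_mem _, by rw [map_zero, hx0]⟩

lemma CV_neg_left {M N : DGA k} (f : DGA.Hom M N) (G : Twist M) (n b : ℤ) (hn : n < 0) :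
    (G.tens (DGMod.ofHom f)).Van n b := by
  intro x hx _
  have hx0 : x = 0 := by
    funext α
    have h1 : x α ∈ N.gr (n - G.n α) (b - G.j α) := hx α
    exact N.neg_left (by have := G.n_nonneg α; omega) h1
  exact ⟨0, AddSubgroup.zero_mem _, by rw [map_zero, hx0]⟩

/-- A region `U` of bidegrees containing all negative ones, closed under the degrees of the killed
variables, on which `Tor^M(M, k)` vanishes. -/
theorem chain_van {M N : DGA k} {f : DGA.Hom M N} {L : List (ℤ × ℤ)} (h : DGA.Chain M N f L)
    (G : Twist M) (U : Set (ℤ × ℤ)) (hL : ∀ v ∈ L, 1 ≤ v.2)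
    (hU : ∀ n b, (n, b) ∈ U → (G.tens (DGMod.self M)).Van n b)
    (hcl : ∀ n b, (n, b) ∈ U → ∀ v ∈ L, (n - 1 - v.1, b - v.2) ∈ U)
    (n b : ℤ) (hnb : (n, b) ∈ U) : (G.tens (DGMod.ofHom f)).Van n b := by
  induction h generalizing n b with
  | nil => exact hU n b hnb
  | @cons N N' f L g i j v hc hs ih =>
    have hj : 1 ≤ j := hL (i, j) (List.mem_cons_self ..)
    have hcl' : ∀ n b, (n, b) ∈ U → (n - 1 - i, b - j) ∈ U := fun n b hnb =>
      hcl n b hnb (i, j) (List.mem_cons_self ..)
    have ih' := ih (fun w hw => hL w (List.mem_cons_of_mem _ hw))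
      (fun n b hnb w hw => hcl n b hnb w (List.mem_cons_of_mem _ hw))
    rcases Int.even_or_odd i with hi | hi
    · obtain ⟨S⟩ := IsStep.ses_even f g hi hs
      obtain ⟨B⟩ := S.tens G
      have := B.L2 n b (ih' n b hnb) (ih' _ _ (hcl' n b hnb))
      simpa using this
    · obtain ⟨S⟩ := IsStep.ses_odd f g hi hs
      obtain ⟨B⟩ := S.tens G
      have key : ∀ (K : ℕ) (n b : ℤ), b < K → (n, b) ∈ U →
          (G.tens (DGMod.ofHom (g.comp f))).Van n b := by
        intro K
        induction K with
        | zero => intro n b hb _; exact CV_neg_right _ G n b (by simpa using hb)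
        | succ K ihK =>
          intro n b hb hnb
          push_cast at hb
          have := B.L2 n b (ih' n b hnb) (ihK _ _ (by omega) (hcl' n b hnb))
          simpa using this
      exact key (b + 1).toNat n b (by omega) hnb

end FV
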