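import Pool.Agent.helper92.FV.SQ1
import Pool.Agent.helper92.FV.CV

/-! # MP_51fbee_al, module SQ2 : Koszul homology of `R` from the model -/

namespace FV

universe u

variable {k : Type u} [Field k]

lemma SQ2_refl {M : DGA k} (X : DGMod M) (J : ℤ) : Nonempty (SQI X X J) :=
  ⟨{ φ := AddMonoidHom.id _
     φ_mem := fun n m x hx => hx
     φ_d := fun x => rfl
     φ_smul := fun r x => rfl
     surj := fun n m _ y hy => ⟨y, hy, rfl⟩
     ker := fun n m _ x _ h0 _ => by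
      have h0' : x = 0 := h0
      exact ⟨0, AddSubgroup.zero_mem _, rfl, by rw [map_zero, h0']⟩ }⟩

/-- killing a regular element of bidegree `(0, 1)` -/
theorem SQI.step {M N N' : DGA k} (f : DGA.Hom M N) (g : DGA.Hom N N') (x : M.A)
    (hx : x ∈ M.gr 0 1) (h : DGA.IsStep g 0 1 (f.f x)) (J : ℤ) :
    Nonempty (SQI (DGMod.cone x hx (DGMod.ofHom f)) (DGMod.ofHom (g.comp f)) J) := by
  have hεv : N.ε (f.f x) = f.f x := by rw [N.ε_gr h.mem]; simp
  let φ : (N.A × N.A) →+ N'.A := (g.f : N.A →+* N'.A).toAddMonoidHom.comp (AddMonoidHom.fst _ _)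
  refine ⟨{
    φ := φ
    φ_mem := fun n m p hp => g.f_mem hp.1
    φ_d := ?_
    φ_smul := ?_
    surj := ?_
    ker := ?_ }⟩
  · intro (p : N.A × N.A)
    show N'.d (g.f p.1) = g.f (N.d p.1 + f.f x * p.2)
    rw [map_add, map_mul, h.gv, zero_mul, add_zero, g.f_d]
  · intro r (p : N.A × N.A)
    show g.f (f.f r * p.1) = g.f (f.f r) * g.f p.1
    rw [map_mul]
  · intro n m _ y hy
    obtain ⟨a, ha, hga⟩ := h.surj n m y hy
    exact ⟨((a, 0) : N.A × N.A), ⟨ha, AddSubgroup.zero_mem _⟩, hga⟩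
  · intro n m _ (p : N.A × N.A) hp h0 hDp
    have hp1 : p.1 ∈ N.gr n m := hp.1
    have h0' : g.f p.1 = 0 := h0
    have hD1 : N.d p.1 + f.f x * p.2 = 0 := congrArg Prod.fst hDp
    obtain ⟨y, hy, hvy⟩ := h.ker n m p.1 hp1 h0'
    have h2 : N.d y + p.2 = 0 := by
      apply h.even Even.zero
      rw [mul_add, ← hD1, ← hvy, N.d_mul, h.dv, zero_mul, zero_add, hεv]
    have hy' : y ∈ N.gr (n + 1 - 1) (m - 1) := by
      rw [sub_zero] at hy
      rwa [add_sub_cancel_right]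
    refine ⟨((0, y) : N.A × N.A), ⟨AddSubgroup.zero_mem _, hy'⟩, ?_, ?_⟩
    · show g.f 0 = 0
      exact map_zero _
    · show (N.d 0 + f.f x * y, - N.d y) = p
      rw [map_zero, zero_add, hvy]
      exact Prod.ext rfl (by show - N.d y = p.2; exact (eq_neg_of_add_eq_zero_right h2).symm)

theorem XChain.sqi {M N : DGA k} {f : DGA.Hom M N} {ys : List M.A} (h : DGA.XChain M N f ys)
    (hy : ∀ y ∈ ys, y ∈ M.gr 0 1) (J : ℤ) :
    Nonempty (SQI (DGMod.kos ys hy (DGMod.self M)) (DGMod.ofHom f) J) := by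
  induction h with
  | nil => exact SQ2_refl _ J
  | @cons N N' f xs g x hx hc hs ih =>
    obtain ⟨S⟩ := ih (fun y hy' => hy y (by simp [hy']))
    obtain ⟨T⟩ := S.cone x hx
    obtain ⟨U⟩ := SQI.step f g x hx hs J
    exact T.trans U

lemma SQ2_ofRing_gr {R : Type u} [CommRing R] [Algebra k R] {𝒜 : ℕ → Submodule k R}
    [GradedAlgebra 𝒜] {n m : ℤ} (hn : n ≠ 0) {y : (ofRing 𝒜).A} (hy : y ∈ (ofRing 𝒜).gr n m) :
    y = 0 := by
  have h1 : (y : R) ∈ (if n = 0 ∧ 0 ≤ m then 𝒜 m.toNat else ⊥ : Submodule k R) := hy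
  rw [if_neg (by tauto)] at h1
  exact (Submodule.mem_bot k).mp h1

/-- degree bound along a chain -/
theorem chain_gr {N : DGA k} {g : DGA.Hom N (DGA.base k)} {L : List (ℤ × ℤ)}
    (h : DGA.Chain N (DGA.base k) g L) (s : ℝ)
    (hL : ∀ v ∈ L, 1 ≤ v.1 ∧ 1 ≤ v.2 ∧ (v.2 : ℝ) ≤ s * v.1)
    (l m : ℤ) (hlm : s * l < m) (x : N.A) (hx : x ∈ N.gr l m) : x = 0 := by
  have key : ∀ {M N : DGA k} {g : DGA.Hom M N} {L : List (ℤ × ℤ)}
      (_ : DGA.Chain M N g L) (_ : ∀ v ∈ L, 1 ≤ v.1 ∧ 1 ≤ v.2 ∧ (v.2 : ℝ) ≤ s * v.1)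
      (_ : ∀ l m : ℤ, s * l < m → ∀ x ∈ N.gr l m, x = 0),
      ∀ l m : ℤ, s * l < m → ∀ x ∈ M.gr l m, x = 0 := by
    intro M N g L h
    induction h with
    | nil => intro _ h3; exact h3
    | @cons N N' f L g i j v hc hs ih =>
      intro hL hz
      have hij := hL (i, j) (List.mem_cons_self ..)
      simp only at hij
      refine ih (fun v hv => hL v (List.mem_cons_of_mem _ hv)) ?_
      have key2 : ∀ (K : ℕ) (l m : ℤ), m < K → s * l < m → ∀ x ∈ N.gr l m, x = 0 := by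
        intro K
        induction K with
        | zero => intro l m hm _ x hx; exact N.neg_right (by simpa using hm) hx
        | succ K ihK =>
          intro l m hm hlm x hx
          push_cast at hm
          have hg := hz l m hlm _ (g.f_mem hx)
          obtain ⟨y, hy, hvy⟩ := hs.ker _ _ x hx hg
          have hlt : s * ((l - i : ℤ) : ℝ) < ((m - j : ℤ) : ℝ) := by
            push_cast
            have := hij.2.2
            nlinarith
          have hy0 := ihK (l - i) (m - j) (by omega) hlt y hy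
          rw [← hvy, hy0, mul_zero]
      intro l m hlm x hx
      exact key2 (m + 1).toNat l m (by omega) hlm x hx
  refine key h hL ?_ l m hlm x hx
  intro l m hlm x hx
  refine ST_base_gr ?_ hx
  rintro ⟨rfl, rfl⟩
  simp at hlm

section Ring

variable {R : Type u} [CommRing R] [Algebra k R] {𝒜 : ℕ → Submodule k R} [GradedAlgebra 𝒜]

theorem QuasiAt.sqi {M : DGA k} (π : DGA.Hom M (ofRing 𝒜)) (J : ℤ)
    (hQ : ∀ m, m ≤ J → QuasiAt π m) :
    Nonempty (SQI (DGMod.self M) (DGMod.res π (DGMod.self (ofRing 𝒜))) J) := by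
  let φ : M.A →+ (ofRing 𝒜).A := (π.f : M.A →+* (ofRing 𝒜).A).toAddMonoidHom
  refine ⟨{
    φ := φ
    φ_mem := fun n m x hx => π.f_mem hx
    φ_d := fun x => (π.f_d x).symm
    φ_smul := ?_
    surj := ?_
    ker := ?_ }⟩
  · intro r (x : M.A)
    show π.f (r * x) = π.f r * π.f x
    exact map_mul _ _ _
  · intro n m hm y hy
    have hy' : y ∈ (ofRing 𝒜).gr n m := hy
    by_cases hn : n = 0
    · subst hn
      obtain ⟨a, ha, haa⟩ := (hQ m hm).surj y hy'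
      exact ⟨a, ha, haa⟩
    · have h0 := SQ2_ofRing_gr hn hy'
      exact ⟨(0 : M.A), AddSubgroup.zero_mem _, by rw [h0]; exact map_zero φ⟩
  · intro n m hm (x : M.A) hx h0 hDx
    have hx' : x ∈ M.gr n m := hx
    rcases lt_or_ge n 0 with hn | hn
    · have hx0 : x = 0 := M.neg_left hn hx'
      refine ⟨(0 : M.A), AddSubgroup.zero_mem _, map_zero φ, ?_⟩
      rw [hx0]; exact map_zero _
    · obtain ⟨y, hy, hDy⟩ := (hQ m hm).exact n x ⟨hx', hDx, h0⟩
      have h5 := π.f_mem hy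
      have h6 : π.f y = 0 := SQ2_ofRing_gr (𝒜 := 𝒜) (by omega) h5
      exact ⟨y, hy, h6, hDy⟩

/-- isomorphism between a DG module over `M` and a complex over `R` -/
structure SQ2_Iso {M : DGA k} (π : DGA.Hom M (ofRing 𝒜)) (Y : DGMod M)
    (X : DGMod (ofRing 𝒜)) where
  e : Y.N ≃+ X.N
  e_d : ∀ x, e (Y.d x) = X.d (e x)
  e_smul : ∀ (r : M.A) x, e (r • x) = π.f r • e x
  e_mem : ∀ n m x, x ∈ Y.gr n m ↔ e x ∈ X.gr n m

lemma SQ2_Iso.van {M : DGA k} {π : DGA.Hom M (ofRing 𝒜)} {Y : DGMod M}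
    {X : DGMod (ofRing 𝒜)} (I : SQ2_Iso π Y X) (n m : ℤ) :
    Y.bdg.Van n m ↔ X.bdg.Van n m := by
  constructor
  · intro h x hx hDx
    obtain ⟨y, hy, hDy⟩ := h (I.e.symm x)
      ((I.e_mem n m _).mpr (by rw [I.e.apply_symm_apply]; exact hx))
      (I.e.injective (by
        show I.e (Y.d (I.e.symm x)) = I.e 0
        rw [I.e_d, I.e.apply_symm_apply, map_zero]; exact hDx))
    refine ⟨I.e y, (I.e_mem _ _ _).mp hy, ?_⟩
    show X.d (I.e y) = x
    rw [← I.e_d]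
    have : Y.d y = I.e.symm x := hDy
    rw [this, I.e.apply_symm_apply]
  · intro h x hx hDx
    obtain ⟨y, hy, hDy⟩ := h (I.e x) ((I.e_mem n m _).mp hx) (by
        show X.d (I.e x) = 0
        have : Y.d x = 0 := hDx
        rw [← I.e_d, this, map_zero])
    refine ⟨I.e.symm y, (I.e_mem _ _ _).mpr (by rw [I.e.apply_symm_apply]; exact hy), ?_⟩
    apply I.e.injective
    show I.e (Y.d (I.e.symm y)) = I.e x
    rw [I.e_d, I.e.apply_symm_apply]
    exact hDy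

lemma SQ2_Iso.cone {M : DGA k} {π : DGA.Hom M (ofRing 𝒜)} {Y : DGMod M}
    {X : DGMod (ofRing 𝒜)} (I : SQ2_Iso π Y X) (y : M.A) (hy : y ∈ M.gr 0 1)
    (x : (ofRing 𝒜).A) (hx : x ∈ (ofRing 𝒜).gr 0 1) (hxy : π.f y = x) :
    Nonempty (SQ2_Iso π (DGMod.cone y hy Y) (DGMod.cone x hx X)) := by
  subst hxy
  let e : (Y.N × Y.N) ≃+ (X.N × X.N) := I.e.prodCongr I.e
  refine ⟨{
    e := e
    e_d := ?_
    e_smul := ?_
    e_mem := ?_ }⟩
  · intro (p : Y.N × Y.N)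
    show (I.e (Y.d p.1 + y • p.2), I.e (- Y.d p.2)) = (X.d (I.e p.1) + π.f y • I.e p.2,
      - X.d (I.e p.2))
    rw [map_add, I.e_smul, I.e_d, map_neg, I.e_d]
  · intro r (p : Y.N × Y.N)
    show (I.e (r • p.1), I.e (M.ε r • p.2)) = (π.f r • I.e p.1, (ofRing 𝒜).ε (π.f r) • I.e p.2)
    rw [I.e_smul, I.e_smul, π.f_ε]
  · intro n m (p : Y.N × Y.N)
    constructor
    · intro hp
      exact ⟨(I.e_mem _ _ _).mp hp.1, (I.e_mem _ _ _).mp hp.2⟩
    · intro hp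
      exact ⟨(I.e_mem _ _ _).mpr hp.1, (I.e_mem _ _ _).mpr hp.2⟩

lemma SQ2_kos {M : DGA k} (π : DGA.Hom M (ofRing 𝒜)) (X : DGMod (ofRing 𝒜)) :
    ∀ (ys : List M.A) (hy : ∀ y ∈ ys, y ∈ M.gr 0 1) (xs : List (ofRing 𝒜).A)
      (hx : ∀ x ∈ xs, x ∈ (ofRing 𝒜).gr 0 1) (_ : ys.map (fun y => π.f y) = xs),
      Nonempty (SQ2_Iso π (DGMod.kos ys hy (DGMod.res π X)) (DGMod.kos xs hx X)) := by
  intro ys
  induction ys with
  | nil =>
    intro hy xs hx h
    simp only [List.map_nil] at h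
    subst h
    exact ⟨{
      e := AddEquiv.refl _
      e_d := fun x => rfl
      e_smul := fun r x => rfl
      e_mem := fun n m x => Iff.rfl }⟩
  | cons y ys ih =>
    intro hy xs hx h
    simp only [List.map_cons] at h
    subst h
    obtain ⟨I⟩ := ih (fun z hz => hy z (by simp [hz])) (ys.map (fun y => π.f y))
      (fun x hx' => hx x (List.mem_cons_of_mem _ hx')) rfl
    exact I.cone y (hy y (by simp)) (π.f y) (hx _ (List.mem_cons_self ..)) rfl

/-- Koszul complexes commute with restriction of scalars -/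
theorem kos_res {M : DGA k} (π : DGA.Hom M (ofRing 𝒜)) (ys : List M.A)
    (hy : ∀ y ∈ ys, y ∈ M.gr 0 1) (xs : List R) (hxs : ∀ x ∈ xs, x ∈ 𝒜 1)
    (h : ys.map (fun y => π.toR y) = xs) (l m : ℤ) :
    (DGMod.kos ys hy (DGMod.res π (DGMod.self (ofRing 𝒜)))).bdg.Van l m ↔
      (kosR xs hxs).bdg.Van l m := by
  obtain ⟨I⟩ := SQ2_kos π (DGMod.self (ofRing 𝒜)) ys hy xs (kos_mem xs hxs) h
  exact I.van l m

theorem tau_bound {xs : List R} (hxs : ∀ x ∈ xs, x ∈ 𝒜 1) {J : ℤ} (P : PreModel 𝒜 xs J)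
    (hQ : ∀ m, m ≤ J → QuasiAt P.π m)
    (σ : ℝ) (hσ : 1 ≤ σ) (hs : ∀ v ∈ P.vars, (v.2 : ℝ) ≤ σ * (v.1 + 1))
    (l m : ℤ) (_hl : 1 ≤ l) (hm : m ≤ J) (hlm : 2 * σ * l < m) :
    (kosR xs hxs).bdg.Van l m := by
  obtain ⟨Mb, f, g, hX, hC⟩ := P.chain
  rw [← kos_res P.π P.ys P.ys_mem xs hxs P.ys_map l m]
  obtain ⟨S⟩ := QuasiAt.sqi P.π J hQ
  obtain ⟨T⟩ := S.kos P.ys P.ys_mem
  rw [← T.bdg_iff l m hm]
  obtain ⟨U⟩ := XChain.sqi hX P.ys_mem J
  rw [U.bdg_iff l m hm]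
  intro x hx _
  have hx0 : x = 0 := by
    refine chain_gr hC (2 * σ) ?_ l m hlm x hx
    intro v hv
    have h1 := P.vars_le v hv
    have h2 := hs v hv
    have h3 : (1 : ℝ) ≤ v.1 := by exact_mod_cast h1.1
    refine ⟨h1.1, by omega, ?_⟩
    nlinarith
  exact ⟨0, AddSubgroup.zero_mem _, by rw [map_zero, hx0]⟩

theorem tens_R {M : DGA k} (π : DGA.Hom M (ofRing 𝒜)) (J : ℤ) (hQ : ∀ m, m ≤ J → QuasiAt π m)
    (G : Twist M) (hG : G.IsRes J) (n b : ℤ) (hb : b ≤ J) (hnb : (n, b) ≠ ((0 : ℤ), (0 : ℤ))) :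
    (G.tens (DGMod.res π (DGMod.self (ofRing 𝒜)))).Van n b := by
  obtain ⟨S⟩ := QuasiAt.sqi π J hQ
  rw [← S.tens_iff G n b hb]
  exact hG.van n b hb hnb

end Ring

end FV
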