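import Pool.Agent.helper92.FV.Defs

/-! # MP_51fbee_al, module LES : exact sequences -/

namespace FV

universe u

variable {k : Type u} [Field k]

/-- Short exact sequence of bigraded differential groups with shifts and signs. -/
structure BSES (C1 C2 C3 : BDG.{u}) (a b a' b' : ℤ) where
  f : C1.X →+ C2.X
  g : C2.X →+ C3.X
  s : ℤ
  s' : ℤ
  hs : s * s = 1
  hs' : s' * s' = 1
  f_mem : ∀ n m, ∀ x ∈ C1.gr n m, f x ∈ C2.gr (n + a) (m + b)
  g_mem : ∀ n m, ∀ x ∈ C2.gr n m, g x ∈ C3.gr (n + a') (m + b')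
  f_D : ∀ x, C2.D (f x) = s • f (C1.D x)
  g_D : ∀ x, C3.D (g x) = s' • g (C2.D x)
  inj : ∀ n m, ∀ x ∈ C1.gr n m, f x = 0 → x = 0
  gf : ∀ x, g (f x) = 0
  exact : ∀ n m, ∀ x ∈ C2.gr n m, g x = 0 → ∃ y ∈ C1.gr (n - a) (m - b), f y = x
  surj : ∀ n m, ∀ x ∈ C3.gr n m, ∃ y ∈ C2.gr (n - a') (m - b'), g y = x

namespace BSES

variable {C1 C2 C3 : BDG.{u}} {a b a' b' : ℤ} (S : BSES C1 C2 C3 a b a' b')
include S

lemma f_D' (x : C1.X) : S.f (C1.D x) = S.s • C2.D (S.f x) := by
  rw [S.f_D, smul_smul, S.hs, one_smul]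

lemma g_D' (x : C2.X) : S.g (C2.D x) = S.s' • C3.D (S.g x) := by
  rw [S.g_D, smul_smul, S.hs', one_smul]

lemma s_zero {x : C2.X} (h : S.s • x = 0) : x = 0 := by
  have := congrArg (fun y => S.s • y) h
  simpa [smul_smul, S.hs] using this

lemma D_eq_zero {n m : ℤ} {u : C1.X} (hu : u ∈ C1.gr n m) (h : C2.D (S.f u) = 0) :
    C1.D u = 0 := by
  apply S.inj _ _ _ (C1.D_mem hu)
  rw [S.f_D', h, smul_zero]

theorem L1 (n j : ℤ)
    (h1 : C1.Van (n - a) (j - b)) (h3 : C3.Van (n + a') (j + b')) : C2.Van n j := by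
  intro x hx hDx
  have hg : C3.D (S.g x) = 0 := by rw [S.g_D, hDx, map_zero, smul_zero]
  obtain ⟨t, ht, htD⟩ := h3 _ (S.g_mem n j x hx) hg
  obtain ⟨w, hw, rfl⟩ := S.surj _ _ t ht
  have hw' : w ∈ C2.gr (n + 1) j := by
    have e1 : n + a' + 1 - a' = n + 1 := by ring
    have e2 : j + b' - b' = j := by ring
    rwa [e1, e2] at hw
  have hDw : C2.D w ∈ C2.gr n j := by
    have := C2.D_mem hw'
    rwa [show n + 1 - 1 = n by ring] at this
  set x' := x - S.s' • C2.D w with hx'
  have hx'mem : x' ∈ C2.gr n j := AddSubgroup.sub_mem _ hx (AddSubgroup.zsmul_mem _ hDw _)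
  have hgx' : S.g x' = 0 := by
    rw [hx', map_sub, map_zsmul, S.g_D', smul_smul, S.hs', one_smul, htD, sub_self]
  obtain ⟨v, hv, hfv⟩ := S.exact _ _ x' hx'mem hgx'
  have hDx' : C2.D x' = 0 := by
    rw [hx', map_sub, hDx, map_zsmul, C2.D_D, smul_zero, sub_self]
  have hDv : C1.D v = 0 := S.D_eq_zero hv (by rw [hfv, hDx'])
  obtain ⟨y, hy, hDy⟩ := h1 v hv hDv
  refine ⟨S.s • S.f y + S.s' • w, ?_, ?_⟩
  · refine AddSubgroup.add_mem _ (AddSubgroup.zsmul_mem _ ?_ _) (AddSubgroup.zsmul_mem _ hw' _)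
    have := S.f_mem _ _ y hy
    rwa [show n - a + 1 + a = n + 1 by ring, show j - b + b = j by ring] at this
  · rw [map_add, map_zsmul, map_zsmul, S.f_D, smul_smul, S.hs, one_smul, hDy, hfv, hx']
    abel

theorem L2 (n j : ℤ)
    (h2 : C2.Van n j) (h1 : C1.Van (n - 1 - a) (j - b)) : C3.Van (n + a') (j + b') := by
  intro z hz hDz
  obtain ⟨x, hx, rfl⟩ := S.surj _ _ z hz
  have hx' : x ∈ C2.gr n j := by
    rwa [show n + a' - a' = n by ring, show j + b' - b' = j by ring] at hx
  have hDx : C2.D x ∈ C2.gr (n - 1) j := C2.D_mem hx'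
  have hgD : S.g (C2.D x) = 0 := by rw [S.g_D', hDz, smul_zero]
  obtain ⟨v, hv, hfv⟩ := S.exact _ _ _ hDx hgD
  have hDv : C1.D v = 0 := S.D_eq_zero hv (by rw [hfv, C2.D_D])
  obtain ⟨y, hy, hDy⟩ := h1 v hv hDv
  have hfy : S.f y ∈ C2.gr n j := by
    have := S.f_mem _ _ y hy
    rwa [show n - 1 - a + 1 + a = n by ring, show j - b + b = j by ring] at this
  have hcyc : C2.D (x - S.s • S.f y) = 0 := by
    rw [map_sub, map_zsmul, S.f_D, smul_smul, S.hs, one_smul, hDy, hfv, sub_self]
  obtain ⟨t, ht, htD⟩ := h2 _ (AddSubgroup.sub_mem _ hx' (AddSubgroup.zsmul_mem _ hfy _)) hcyc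
  refine ⟨S.s' • S.g t, ?_, ?_⟩
  · have := S.g_mem _ _ t ht
    rw [show n + 1 + a' = n + a' + 1 by ring] at this
    exact AddSubgroup.zsmul_mem _ this _
  · rw [map_zsmul, S.g_D, smul_smul, S.hs', one_smul, htD, map_sub, map_zsmul, S.gf, smul_zero,
      sub_zero]

theorem L3 (n j : ℤ)
    (h3 : C3.Van (n + 1 + a') (j + b')) (h2 : C2.Van n j) : C1.Van (n - a) (j - b) := by
  intro v hv hDv
  have hfv : S.f v ∈ C2.gr n j := by
    have := S.f_mem _ _ v hv
    rwa [show n - a + a = n by ring, show j - b + b = j by ring] at this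
  have hDfv : C2.D (S.f v) = 0 := by rw [S.f_D, hDv, map_zero, smul_zero]
  obtain ⟨t, ht, htD⟩ := h2 _ hfv hDfv
  have hgt : C3.D (S.g t) = 0 := by rw [S.g_D, htD, S.gf, smul_zero]
  obtain ⟨w, hw, hwD⟩ := h3 _ (S.g_mem _ _ t ht) hgt
  obtain ⟨r, hr, rfl⟩ := S.surj _ _ w hw
  have hr' : r ∈ C2.gr (n + 2) j := by
    rwa [show n + 1 + a' + 1 - a' = n + 2 by ring, show j + b' - b' = j by ring] at hr
  have hDr : C2.D r ∈ C2.gr (n + 1) j := by
    have := C2.D_mem hr'
    rwa [show n + 2 - 1 = n + 1 by ring] at this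
  have hg0 : S.g (t - S.s' • C2.D r) = 0 := by
    rw [map_sub, map_zsmul, S.g_D', smul_smul, S.hs', one_smul, hwD, sub_self]
  obtain ⟨y, hy, hfy⟩ := S.exact _ _ _
    (AddSubgroup.sub_mem _ ht (AddSubgroup.zsmul_mem _ hDr _)) hg0
  have hy' : y ∈ C1.gr (n - a + 1) (j - b) := by
    rwa [show n + 1 - a = n - a + 1 by ring] at hy
  refine ⟨S.s • y, AddSubgroup.zsmul_mem _ hy' _, ?_⟩
  have h5 : S.f (C1.D (S.s • y) - v) = 0 := by
    rw [map_sub, map_zsmul, map_zsmul, S.f_D', smul_smul, S.hs, one_smul, hfy, map_sub, map_zsmul,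
      C2.D_D, smul_zero, sub_zero, htD, sub_self]
  have hmem : C1.D (S.s • y) - v ∈ C1.gr (n - a) (j - b) := by
    refine AddSubgroup.sub_mem _ ?_ hv
    have := C1.D_mem (AddSubgroup.zsmul_mem _ hy' S.s)
    rwa [show n - a + 1 - 1 = n - a by ring] at this
  exact sub_eq_zero.mp (S.inj _ _ _ hmem h5)

end BSES

/-- the underlying exact sequence of bigraded differential groups -/
theorem SES.bses {M : DGA k} {N1 N2 N3 : DGMod M} {a b a' b' : ℤ} (S : SES N1 N2 N3 a b a' b') :
    Nonempty (BSES N1.bdg N2.bdg N3.bdg a b a' b') :=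
  ⟨{ f := S.f
     g := S.g
     s := sg a
     s' := sg a'
     hs := sg_mul_self a
     hs' := sg_mul_self a'
     f_mem := S.f_mem
     g_mem := S.g_mem
     f_D := S.f_d
     g_D := S.g_d
     inj := S.inj
     gf := S.gf
     exact := S.exact
     surj := S.surj }⟩

/-- sign rule for the powers of the involution -/
lemma LES_εp {M : DGA k} (a : ℤ) {i j : ℤ} {c : M.A} (hc : c ∈ M.gr i j) :
    M.εp a c = sg (a * i) • c := by
  unfold DGA.εp
  split_ifs with h
  · rw [sg_even (h.mul_right i), one_smul]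
  · have ho : Odd a := Int.not_even_iff_odd.mp h
    rw [M.ε_gr hc]
    congr 1
    rcases Int.even_or_odd i with hi | hi
    · rw [sg_even hi, sg_even (hi.mul_left a)]
    · rw [sg_odd hi, sg_odd (ho.mul hi)]

/-- a map of DG modules of bidegree `(a, b)` induces a map on `G ⊗ -` -/
lemma LES_comm {M : DGA k} (G : Twist M) {N1 N2 : DGMod M} {a : ℤ} (f : N1.N →+ N2.N)
    (f_d : ∀ x, N2.d (f x) = sg a • f (N1.d x))
    (f_smul : ∀ (r : M.A) x, f (r • x) = M.εp a r • f x) (x : G.I → N1.N) (β : G.I) :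
    sg (G.n β) • N2.d (sg (a * G.n β) • f (x β))
      + ∑ α, G.c β α • (sg (a * G.n α) • f (x α))
      = sg a • (sg (a * G.n β) • f (sg (G.n β) • N1.d (x β) + ∑ α, G.c β α • x α)) := by
  rw [map_add, map_zsmul, map_zsmul, map_sum, f_d, smul_add, smul_add]
  congr 1
  · simp only [smul_smul]
    congr 1
    ring
  · rw [Finset.smul_sum, Finset.smul_sum]
    refine Finset.sum_congr rfl fun α _ => ?_
    rw [f_smul, LES_εp a (G.c_mem β α), smul_comm (G.c β α) (sg (a * G.n α)), smul_assoc]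
    simp only [smul_smul]
    congr 1
    have e : a * (G.n α - G.n β - 1) = a * G.n α - a * G.n β - a := by ring
    rw [e, sg_sub, sg_sub]
    have h1 := sg_mul_self (a * G.n β)
    have h2 := sg_mul_self a
    linear_combination (- sg (a * G.n α) * sg a * sg a) * h1 - sg (a * G.n α) * h2

/-- exactness of `G ⊗ -` -/
theorem SES.tens {M : DGA k} (G : Twist M) {N1 N2 N3 : DGMod M} {a b a' b' : ℤ}
    (S : SES N1 N2 N3 a b a' b') :
    Nonempty (BSES (G.tens N1) (G.tens N2) (G.tens N3) a b a' b') := by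
  classical
  refine ⟨{
    f :=
      { toFun := fun x α => sg (a * G.n α) • S.f (x α)
        map_zero' := by
          funext α
          show sg (a * G.n α) • S.f 0 = 0
          rw [map_zero, smul_zero]
        map_add' := fun x y => by
          funext α
          show sg (a * G.n α) • S.f (x α + y α)
            = sg (a * G.n α) • S.f (x α) + sg (a * G.n α) • S.f (y α)
          rw [map_add, smul_add] }
    g :=
      { toFun := fun x α => sg (a' * G.n α) • S.g (x α)
        map_zero' := by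
          funext α
          show sg (a' * G.n α) • S.g 0 = 0
          rw [map_zero, smul_zero]
        map_add' := fun x y => by
          funext α
          show sg (a' * G.n α) • S.g (x α + y α)
            = sg (a' * G.n α) • S.g (x α) + sg (a' * G.n α) • S.g (y α)
          rw [map_add, smul_add] }
    s := sg a
    s' := sg a'
    hs := sg_mul_self a
    hs' := sg_mul_self a'
    f_mem := ?_
    g_mem := ?_
    f_D := ?_
    g_D := ?_
    inj := ?_
    gf := ?_
    exact := ?_
    surj := ?_ }⟩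
  · intro n m x hx α
    have := S.f_mem _ _ _ (hx α)
    rw [show n - G.n α + a = n + a - G.n α by ring,
      show m - G.j α + b = m + b - G.j α by ring] at this
    exact AddSubgroup.zsmul_mem _ this _
  · intro n m x hx α
    have := S.g_mem _ _ _ (hx α)
    rw [show n - G.n α + a' = n + a' - G.n α by ring,
      show m - G.j α + b' = m + b' - G.j α by ring] at this
    exact AddSubgroup.zsmul_mem _ this _
  · intro x
    funext β
    exact LES_comm G S.f S.f_d S.f_smul x β
  · intro x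
    funext β
    exact LES_comm G S.g S.g_d S.g_smul x β
  · intro n m x hx h0
    funext α
    have h1 : sg (a * G.n α) • S.f (x α) = 0 := congrFun h0 α
    have h2 : S.f (x α) = 0 := by
      have := congrArg (fun y => sg (a * G.n α) • y) h1
      simpa [smul_smul] using this
    exact S.inj _ _ _ (hx α) h2
  · intro x
    funext α
    show sg (a' * G.n α) • S.g (sg (a * G.n α) • S.f (x α)) = 0
    rw [map_zsmul, S.gf, smul_zero, smul_zero]
  · intro n m x hx h0
    have h1 : ∀ α, ∃ y ∈ N1.gr (n - a - G.n α) (m - b - G.j α), S.f y = x α := by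
      intro α
      have h2 : sg (a' * G.n α) • S.g (x α) = 0 := congrFun h0 α
      have h3 : S.g (x α) = 0 := by
        have := congrArg (fun y => sg (a' * G.n α) • y) h2
        simpa [smul_smul] using this
      obtain ⟨y, hy, hfy⟩ := S.exact _ _ _ (hx α) h3
      refine ⟨y, ?_, hfy⟩
      rwa [show n - G.n α - a = n - a - G.n α by ring,
        show m - G.j α - b = m - b - G.j α by ring] at hy
    choose y hy hfy using h1
    refine ⟨fun α => sg (a * G.n α) • y α, fun α => AddSubgroup.zsmul_mem _ (hy α) _, ?_⟩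
    funext α
    show sg (a * G.n α) • S.f (sg (a * G.n α) • y α) = x α
    rw [map_zsmul, smul_smul, sg_mul_self, one_smul, hfy]
  · intro n m x hx
    have h1 : ∀ α, ∃ y ∈ N2.gr (n - a' - G.n α) (m - b' - G.j α), S.g y = x α := by
      intro α
      obtain ⟨y, hy, hgy⟩ := S.surj _ _ _ (hx α)
      refine ⟨y, ?_, hgy⟩
      rwa [show n - G.n α - a' = n - a' - G.n α by ring,
        show m - G.j α - b' = m - b' - G.j α by ring] at hy
    choose y hy hgy using h1
    refine ⟨fun α => sg (a' * G.n α) • y α, fun α => AddSubgroup.zsmul_mem _ (hy α) _, ?_⟩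
    funext α
    show sg (a' * G.n α) • S.g (sg (a' * G.n α) • y α) = x α
    rw [map_zsmul, smul_smul, sg_mul_self, one_smul, hgy]

end FV
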