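import Pool.Agent.helper92.FV.Base

/-!
# MP_51fbee_al : adjunction of one even variable (polynomial extension)
-/

namespace FV

universe u

variable {k : Type u} [Field k]

open Polynomial

namespace DGA

/-- Data for adjoining a variable `v` of bidegree `(i, j)` with `d v = z`. -/
structure AdjData (A : DGA k) (i j : ℤ) (z : A.A) : Prop where
  i_nonneg : 0 ≤ i
  j_pos : 1 ≤ j
  z_mem : z ∈ A.gr (i - 1) j
  dz : A.d z = 0

/-- monomials as `k`-linear maps -/
noncomputable def mon (A : DGA k) (t : ℕ) : A.A →ₗ[k] A.A[X] :=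
  (Polynomial.monomial t : A.A →ₗ[A.A] A.A[X]).restrictScalars k

@[simp] lemma mon_apply (A : DGA k) (t : ℕ) (a : A.A) : A.mon t a = Polynomial.monomial t a := rfl

/-- right multiplication by z after the involution and multiplied by the exponent -/
noncomputable def dE (A : DGA k) (z : A.A) : A.A[X] →ₗ[k] A.A[X] :=
  Polynomial.lsum fun t =>
    (A.mon t) ∘ₗ A.d + (A.mon (t - 1)) ∘ₗ ((t : k) • (LinearMap.mulRight k z ∘ₗ A.ε.toLinearMap))

lemma dE_monomial (A : DGA k) (z : A.A) (t : ℕ) (a : A.A) :
    A.dE z (monomial t a) = monomial t (A.d a) + monomial (t - 1) ((t : k) • (A.ε a * z)) := by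
  simp [dE, Polynomial.lsum_apply]

lemma coeff_dE (A : DGA k) (z : A.A) (f : A.A[X]) (t : ℕ) :
    (A.dE z f).coeff t = A.d (f.coeff t) + ((t + 1 : ℕ) : k) • (A.ε (f.coeff (t + 1)) * z) := by
  induction f using Polynomial.induction_on' with
  | add f g hf hg =>
    rw [map_add, coeff_add, hf, hg, coeff_add, coeff_add, map_add, map_add, add_mul, smul_add]
    abel
  | monomial s a =>
    rw [dE_monomial, coeff_add, coeff_monomial, coeff_monomial, coeff_monomial, coeff_monomial]
    rcases Nat.eq_zero_or_pos s with rfl | hs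
    · rcases Nat.eq_zero_or_pos t with rfl | ht
      · simp
      · have h1 : ¬ (0 = t) := by omega
        simp [h1]
    · by_cases h : s = t
      · subst h
        have h1 : ¬ (s - 1 = s) := by omega
        simp [h1]
      · by_cases h2 : s = t + 1
        · subst h2
          simp
        · have h1 : ¬ (s - 1 = t) := by omega
          simp [h, h1, h2]

lemma sq_odd (A : DGA k) {i j : ℤ} {z : A.A} (hz : z ∈ A.gr i j) (hi : Odd i) :
    (2 : k) • (z * z) = 0 := by
  have h := A.comm_odd hz hi z
  rw [A.ε_gr hz, sg_odd hi] at h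
  have h2 : z * z = - (z * z) := by
    simpa using h
  rw [two_smul]
  nth_rewrite 2 [h2]
  exact add_neg_cancel _

/-- Adjunction of one even variable. -/
noncomputable def adjE (A : DGA k) (i j : ℤ) (z : A.A) (hi : Even i) (h : AdjData A i j z) :
    DGA k where
  A := A.A[X]
  ε := Polynomial.mapAlgHom A.ε
  d := A.dE z
  gr n m :=
    { carrier := {f | ∀ t : ℕ, f.coeff t ∈ A.gr (n - t * i) (m - t * j)}
      zero_mem' := fun t => by rw [coeff_zero]; exact Submodule.zero_mem _
      add_mem' := fun {f g} hf hg t => by rw [coeff_add]; exact Submodule.add_mem _ (hf t) (hg t)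
      smul_mem' := fun c f hf t => by rw [coeff_smul]; exact Submodule.smul_mem _ _ (hf t) }
  one_mem := fun t => by
    rw [coeff_one]
    split_ifs with ht
    · subst ht; simpa using A.one_mem
    · exact Submodule.zero_mem _
  mul_mem := by
    intro n m n' m' f g hf hg t
    rw [coeff_mul]
    refine Submodule.sum_mem _ fun x hx => ?_
    have hx' : x.1 + x.2 = t := by simpa using hx
    have := A.mul_mem (hf x.1) (hg x.2)
    have e1 : n - (x.1 : ℤ) * i + (n' - (x.2 : ℤ) * i) = n + n' - t * i := by
      rw [← hx']; push_cast; ring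
    have e2 : m - (x.1 : ℤ) * j + (m' - (x.2 : ℤ) * j) = m + m' - t * j := by
      rw [← hx']; push_cast; ring
    rwa [e1, e2] at this
  neg_left := by
    intro n m f hn hf
    ext t
    rw [coeff_zero]
    refine A.neg_left ?_ (hf t)
    have := h.i_nonneg
    have : 0 ≤ (t : ℤ) * i := by positivity
    omega
  neg_right := by
    intro n m f hn hf
    ext t
    rw [coeff_zero]
    refine A.neg_right ?_ (hf t)
    have := h.j_pos
    have : 0 ≤ (t : ℤ) * j := by positivity
    omega
  ε_gr := by
    intro n m f hf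
    ext t
    have : (Polynomial.mapAlgHom A.ε f).coeff t = A.ε (f.coeff t) := by
      simp [Polynomial.mapAlgHom]
    rw [this, A.ε_gr (hf t), sg_sub, sg_even (hi.mul_left (t : ℤ)), mul_one]
    simp
  ε_ε := by
    intro f
    ext t
    simp [Polynomial.mapAlgHom, A.ε_ε]
  ε_d := by
    intro f
    ext t
    have h1 : ∀ g : A.A[X], (Polynomial.mapAlgHom A.ε g).coeff t = A.ε (g.coeff t) := by
      intro g; simp [Polynomial.mapAlgHom]
    have h2 : (Polynomial.mapAlgHom A.ε f).coeff (t + 1) = A.ε (f.coeff (t + 1)) := by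
      simp [Polynomial.mapAlgHom]
    rw [h1, coeff_dE, coeff_neg, coeff_dE, h1, h2, map_add, A.ε_d, map_smul, map_mul, A.ε_ε]
    rw [A.ε_gr h.z_mem, sg_odd (hi.sub_odd odd_one)]
    simp only [neg_smul, one_smul, mul_neg, smul_neg, neg_add_rev]
    abel
  d_mem := by
    intro n m f hf t
    rw [coeff_dE]
    refine Submodule.add_mem _ ?_ (Submodule.smul_mem _ _ ?_)
    · have := A.d_mem (hf t)
      have e : n - (t : ℤ) * i - 1 = n - 1 - t * i := by ring
      rwa [e] at this
    · have := A.mul_mem (A.ε_mem (hf (t + 1))) h.z_mem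
      have e1 : n - ((t + 1 : ℕ) : ℤ) * i + (i - 1) = n - 1 - t * i := by push_cast; ring
      have e2 : m - ((t + 1 : ℕ) : ℤ) * j + j = m - t * j := by push_cast; ring
      rwa [e1, e2] at this
  d_d := by
    intro f
    ext t
    rw [coeff_dE, coeff_dE, coeff_dE, coeff_zero, map_add, A.d_d, zero_add, map_smul, A.d_mul,
      h.dz, mul_zero, add_zero, map_add, map_smul, map_mul, A.ε_ε, A.ε_gr h.z_mem,
      sg_odd (hi.sub_odd odd_one), A.ε_d, add_mul, smul_add]
    have hz := A.sq_odd h.z_mem (hi.sub_odd odd_one)
    have e1 : A.d (A.ε (f.coeff (t + 1))) * z + - (A.d (A.ε (f.coeff (t + 1)))) * z = 0 := by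
      rw [neg_mul, add_neg_cancel]
    have e2 : ((t + 1 : ℕ) : k) • ((((t + 1 + 1 : ℕ) : k) • (f.coeff (t + 1 + 1) * ((-1 : ℤ) • z)) * z))
        = 0 := by
      have e3 : f.coeff (t + 1 + 1) * ((-1 : ℤ) • z) * z = - (f.coeff (t + 1 + 1) * (z * z)) := by
        simp [mul_assoc]
      rw [smul_mul_assoc, e3, smul_smul]
      obtain ⟨s, hs⟩ : ∃ s : ℕ, (t + 1) * (t + 1 + 1) = s * 2 := by
        have := Nat.even_mul_succ_self (t + 1)
        obtain ⟨r, hr⟩ := this
        exact ⟨r, by rw [hr]; ring⟩
      rw [← Nat.cast_mul, hs, Nat.cast_mul, smul_neg, mul_smul, ← mul_smul_comm]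
      have : ((2 : ℕ) : k) • (z * z) = 0 := by simpa using hz
      rw [this]; simp
    rw [e2, add_zero, ← smul_add, e1, smul_zero]
  d_mul := by
    intro f g
    have key : ∀ (s t : ℕ) (a b : A.A),
        A.dE z (monomial s a * monomial t b) =
          A.dE z (monomial s a) * monomial t b
            + Polynomial.mapAlgHom A.ε (monomial s a) * A.dE z (monomial t b) := by
      intro s t a b
      have hε : Polynomial.mapAlgHom A.ε (monomial s a) = monomial s (A.ε a) := by
        simp [Polynomial.mapAlgHom]
      rw [hε, monomial_mul_monomial, dE_monomial, dE_monomial, dE_monomial, add_mul, mul_add,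
        monomial_mul_monomial, monomial_mul_monomial, monomial_mul_monomial,
        monomial_mul_monomial, A.d_mul, map_add, map_mul A.ε a b]
      have hz : z * b = A.ε b * z := A.comm_odd h.z_mem (hi.sub_odd odd_one) b
      have e1 : (monomial (s - 1 + t)) ((s : k) • (A.ε a * z) * b)
          = (monomial (s + t - 1)) ((s : k) • (A.ε a * A.ε b * z)) := by
        rcases Nat.eq_zero_or_pos s with rfl | hs
        · simp
        · have : s - 1 + t = s + t - 1 := by omega
          rw [this, smul_mul_assoc, mul_assoc, hz, mul_assoc]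
      have e2 : (monomial (s + (t - 1))) (A.ε a * (t : k) • (A.ε b * z))
          = (monomial (s + t - 1)) ((t : k) • (A.ε a * A.ε b * z)) := by
        rcases Nat.eq_zero_or_pos t with rfl | ht
        · simp
        · have : s + (t - 1) = s + t - 1 := by omega
          rw [this, mul_smul_comm, mul_assoc]
      rw [e1, e2]
      have e3 : ((s + t : ℕ) : k) • (A.ε a * A.ε b * z)
          = (s : k) • (A.ε a * A.ε b * z) + (t : k) • (A.ε a * A.ε b * z) := by
        rw [← add_smul]; push_cast; rfl
      rw [e3, map_add]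
      abel
    induction f using Polynomial.induction_on' with
    | add f1 f2 h1 h2 =>
      rw [add_mul, map_add, h1, h2, map_add, map_add, add_mul, add_mul]; abel
    | monomial s a =>
      induction g using Polynomial.induction_on' with
      | add g1 g2 h1 h2 =>
        rw [mul_add, map_add, h1, h2, map_add, mul_add, mul_add]; abel
      | monomial t b => exact key s t a b
  comm_even := by
    intro n m g hg hn f
    ext t
    rw [coeff_mul, coeff_mul, ← Finset.Nat.sum_antidiagonal_swap]
    refine Finset.sum_congr rfl fun x _ => ?_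
    have hp : Even (n - (x.1 : ℤ) * i) := hn.sub (hi.mul_left _)
    exact A.comm_even (hg x.1) hp _
  comm_odd := by
    intro n m g hg hn f
    ext t
    rw [coeff_mul, coeff_mul, ← Finset.Nat.sum_antidiagonal_swap]
    refine Finset.sum_congr rfl fun x _ => ?_
    have hp : Odd (n - (x.2 : ℤ) * i) := hn.sub_even (hi.mul_left _)
    have := A.comm_odd (hg x.2) hp (f.coeff x.1)
    simp only [Prod.fst_swap, Prod.snd_swap]
    rw [this]
    simp [Polynomial.mapAlgHom]

end DGA

end FV
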