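import Pool.Agent.helper92.FV.AdjE

/-!
# MP_51fbee_al : adjunction of one odd variable (exterior extension)
-/

namespace FV

universe u

variable {k : Type u} [Field k]

namespace DGA

/-- Carrier of the extension by one odd variable `y`: the pair `(a, b)` stands for `a + b y`. -/
@[ext] structure OExt (A : DGA k) where
  fst : A.A
  snd : A.A

namespace OExt

variable {A : DGA k}

instance : Zero (OExt A) := ⟨⟨0, 0⟩⟩
instance : One (OExt A) := ⟨⟨1, 0⟩⟩
instance : Add (OExt A) := ⟨fun x y => ⟨x.fst + y.fst, x.snd + y.snd⟩⟩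
instance : Neg (OExt A) := ⟨fun x => ⟨-x.fst, -x.snd⟩⟩
instance : Sub (OExt A) := ⟨fun x y => ⟨x.fst - y.fst, x.snd - y.snd⟩⟩
instance : SMul k (OExt A) := ⟨fun c x => ⟨c • x.fst, c • x.snd⟩⟩
instance : SMul ℕ (OExt A) := ⟨fun c x => ⟨c • x.fst, c • x.snd⟩⟩
instance : SMul ℤ (OExt A) := ⟨fun c x => ⟨c • x.fst, c • x.snd⟩⟩
instance : Mul (OExt A) := ⟨fun x y => ⟨x.fst * y.fst, x.fst * y.snd + x.snd * A.ε y.fst⟩⟩

@[simp] lemma zero_fst : (0 : OExt A).fst = 0 := rfl
@[simp] lemma zero_snd : (0 : OExt A).snd = 0 := rfl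
@[simp] lemma one_fst : (1 : OExt A).fst = 1 := rfl
@[simp] lemma one_snd : (1 : OExt A).snd = 0 := rfl
@[simp] lemma add_fst (x y : OExt A) : (x + y).fst = x.fst + y.fst := rfl
@[simp] lemma add_snd (x y : OExt A) : (x + y).snd = x.snd + y.snd := rfl
@[simp] lemma neg_fst (x : OExt A) : (-x).fst = -x.fst := rfl
@[simp] lemma neg_snd (x : OExt A) : (-x).snd = -x.snd := rfl
@[simp] lemma sub_fst (x y : OExt A) : (x - y).fst = x.fst - y.fst := rfl
@[simp] lemma sub_snd (x y : OExt A) : (x - y).snd = x.snd - y.snd := rfl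
@[simp] lemma smul_fst (c : k) (x : OExt A) : (c • x).fst = c • x.fst := rfl
@[simp] lemma smul_snd (c : k) (x : OExt A) : (c • x).snd = c • x.snd := rfl
@[simp] lemma nsmul_fst (c : ℕ) (x : OExt A) : (c • x).fst = c • x.fst := rfl
@[simp] lemma nsmul_snd (c : ℕ) (x : OExt A) : (c • x).snd = c • x.snd := rfl
@[simp] lemma zsmul_fst (c : ℤ) (x : OExt A) : (c • x).fst = c • x.fst := rfl
@[simp] lemma zsmul_snd (c : ℤ) (x : OExt A) : (c • x).snd = c • x.snd := rfl
@[simp] lemma mul_fst (x y : OExt A) : (x * y).fst = x.fst * y.fst := rfl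
@[simp] lemma mul_snd (x y : OExt A) :
    (x * y).snd = x.fst * y.snd + x.snd * A.ε y.fst := rfl

/-- The equivalence with pairs. -/
def equivProd : OExt A ≃ A.A × A.A where
  toFun x := (x.fst, x.snd)
  invFun x := ⟨x.1, x.2⟩
  left_inv _ := rfl
  right_inv _ := rfl

instance : AddCommGroup (OExt A) :=
  Function.Injective.addCommGroup (equivProd (A := A)) equivProd.injective
    rfl (fun _ _ => rfl) (fun _ => rfl) (fun _ _ => rfl) (fun _ _ => rfl) (fun _ _ => rfl)

instance : Ring (OExt A) :=
  { (inferInstance : AddCommGroup (OExt A)) with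
    mul_assoc := fun x y z => by
      ext
      · simp [mul_assoc]
      · simp [mul_assoc, mul_add, add_mul, add_assoc]
    one_mul := fun x => by ext <;> simp
    mul_one := fun x => by ext <;> simp
    zero_mul := fun x => by ext <;> simp
    mul_zero := fun x => by ext <;> simp
    left_distrib := fun x y z => by
      ext
      · simp [mul_add]
      · simp [mul_add]; abel
    right_distrib := fun x y z => by
      ext
      · simp [add_mul]
      · simp [add_mul]; abel }

instance : Module k (OExt A) where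
  one_smul x := by ext <;> simp
  mul_smul c d x := by ext <;> simp [mul_smul]
  smul_zero c := by ext <;> simp
  smul_add c x y := by ext <;> simp
  add_smul c d x := by ext <;> simp [add_smul]
  zero_smul x := by ext <;> simp

instance : Algebra k (OExt A) :=
  Algebra.ofModule
    (fun c x y => by ext <;> simp [smul_add])
    (fun c x y => by ext <;> simp [smul_add])

@[simp] lemma algebraMap_fst (c : k) : (algebraMap k (OExt A) c).fst = algebraMap k A.A c := by
  rw [Algebra.algebraMap_eq_smul_one, Algebra.algebraMap_eq_smul_one]; rfl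

@[simp] lemma algebraMap_snd (c : k) : (algebraMap k (OExt A) c).snd = 0 := by
  rw [Algebra.algebraMap_eq_smul_one]; simp

end OExt

/-- The involution on the odd extension. -/
def εO (A : DGA k) : OExt A →ₐ[k] OExt A where
  toFun x := ⟨A.ε x.fst, - A.ε x.snd⟩
  map_one' := by ext <;> simp
  map_mul' x y := by ext <;> simp
                     abel
  map_zero' := by ext <;> simp
  map_add' x y := by ext <;> simp
                     abel
  commutes' c := by ext <;> simp

/-- The differential on the odd extension. -/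
def dO (A : DGA k) (z : A.A) : OExt A →ₗ[k] OExt A where
  toFun x := ⟨A.d x.fst + A.ε x.snd * z, A.d x.snd⟩
  map_add' x y := by
    ext
    · simp [add_mul]; abel
    · simp
  map_smul' c x := by
    ext
    · simp [smul_add]
    · simp

@[simp] lemma εO_fst (A : DGA k) (x : OExt A) : (A.εO x).fst = A.ε x.fst := rfl
@[simp] lemma εO_snd (A : DGA k) (x : OExt A) : (A.εO x).snd = - A.ε x.snd := rfl
@[simp] lemma dO_fst (A : DGA k) (z : A.A) (x : OExt A) :
    (A.dO z x).fst = A.d x.fst + A.ε x.snd * z := rfl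
@[simp] lemma dO_snd (A : DGA k) (z : A.A) (x : OExt A) : (A.dO z x).snd = A.d x.snd := rfl

/-- Adjunction of one odd variable. -/
def adjO (A : DGA k) (i j : ℤ) (z : A.A) (hi : Odd i) (h : AdjData A i j z) : DGA k where
  A := OExt A
  ε := A.εO
  d := A.dO z
  gr n m :=
    { carrier := {x | x.fst ∈ A.gr n m ∧ x.snd ∈ A.gr (n - i) (m - j)}
      zero_mem' := ⟨Submodule.zero_mem _, Submodule.zero_mem _⟩
      add_mem' := fun hx hy => ⟨Submodule.add_mem _ hx.1 hy.1, Submodule.add_mem _ hx.2 hy.2⟩
      smul_mem' := fun c _ hx => ⟨Submodule.smul_mem _ c hx.1, Submodule.smul_mem _ c hx.2⟩ }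
  one_mem := ⟨A.one_mem, Submodule.zero_mem _⟩
  mul_mem := by
    intro n m n' m' x y hx hy
    refine ⟨A.mul_mem hx.1 hy.1, Submodule.add_mem _ ?_ ?_⟩
    · have := A.mul_mem hx.1 hy.2
      rwa [show n + (n' - i) = n + n' - i by ring, show m + (m' - j) = m + m' - j by ring] at this
    · have := A.mul_mem hx.2 (A.ε_mem hy.1)
      rwa [show n - i + n' = n + n' - i by ring, show m - j + m' = m + m' - j by ring] at this
  neg_left := by
    intro n m x hn hx
    have := h.i_nonneg
    ext
    · exact A.neg_left hn hx.1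
    · exact A.neg_left (by omega) hx.2
  neg_right := by
    intro n m x hm hx
    have := h.j_pos
    ext
    · exact A.neg_right hm hx.1
    · exact A.neg_right (by omega) hx.2
  ε_gr := by
    intro n m x hx
    ext
    · show A.ε x.fst = sg n • x.fst
      exact A.ε_gr hx.1
    · show - A.ε x.snd = sg n • x.snd
      rw [A.ε_gr hx.2, sg_sub, sg_odd hi]
      simp
  ε_ε := by
    intro x
    ext <;> simp [A.ε_ε]
  ε_d := by
    intro x
    have hz := A.ε_gr h.z_mem
    rw [sg_even (hi.sub_odd odd_one), one_smul] at hz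
    ext
    · simp [A.ε_d, A.ε_ε, hz]; abel
    · simp [A.ε_d]
  d_mem := by
    intro n m x hx
    refine ⟨Submodule.add_mem _ (A.d_mem hx.1) ?_, ?_⟩
    · have := A.mul_mem (A.ε_mem hx.2) h.z_mem
      rwa [show n - i + (i - 1) = n - 1 by ring, show m - j + j = m by ring] at this
    · have := A.d_mem hx.2
      rwa [show n - i - 1 = n - 1 - i by ring] at this
  d_d := by
    intro x
    ext
    · simp only [dO_fst, dO_snd, map_add, A.d_d, A.d_mul, h.dz, mul_zero, add_zero, zero_add,
        A.ε_d, OExt.zero_fst]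
      rw [neg_mul, add_neg_cancel]
    · simp [A.d_d]
  d_mul := by
    intro x y
    have hz : ∀ a, a * z = z * a := A.comm_even h.z_mem (hi.sub_odd odd_one)
    have hεz := A.ε_gr h.z_mem
    rw [sg_even (hi.sub_odd odd_one), one_smul] at hεz
    ext
    · simp only [dO_fst, OExt.mul_fst, OExt.mul_snd, OExt.add_fst, εO_fst,
        A.d_mul, map_add, map_mul, A.ε_ε, add_mul, mul_add]
      rw [mul_assoc (A.ε x.snd) y.fst z, hz y.fst, ← mul_assoc (A.ε x.snd) z, mul_assoc (A.ε x.fst)]
      abel
    · simp only [dO_fst, OExt.mul_snd, OExt.add_snd, dO_snd, εO_fst, εO_snd,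
        A.d_mul, map_add, map_mul, A.ε_ε, add_mul, mul_add, A.ε_d, hεz]
      rw [mul_assoc (A.ε x.snd) z y.snd, ← hz y.snd]
      simp only [mul_neg, neg_mul]
      abel
  comm_even := by
    intro n m b hb hn x
    have h1 := A.comm_even hb.1 hn
    have h2 := A.comm_odd hb.2 (hn.sub_odd hi)
    have h3 := A.ε_gr hb.1
    rw [sg_even hn, one_smul] at h3
    ext
    · simp [h1]
    · simp only [OExt.mul_snd, h3, h2, A.ε_ε, ← h1]
      abel
  comm_odd := by
    intro n m b hb hn x
    have h1 := A.comm_odd hb.1 hn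
    have h2 := A.comm_even hb.2 (hn.sub_odd hi)
    have h3 := A.ε_gr hb.1
    rw [sg_odd hn, neg_one_smul] at h3
    ext
    · simp [h1]
    · simp only [OExt.mul_snd, h3, h1, ← h2, εO_fst, εO_snd]
      simp only [mul_neg, neg_mul, neg_neg]
      abel

end DGA

end FV
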