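import Mathlib

/-!
# MP_51fbee_al : basic objects

Bigraded differential groups, bigraded (super)commutative DG algebras over a field, DG modules,
twisting data, adjunction of one even or odd variable.
Degrees: `gr i j`, `i` = homological degree, `j` = internal degree.
-/

namespace FV

universe u

/-- The sign `(-1)^i`, as an integer. -/
def sg (i : ℤ) : ℤ := if Even i then 1 else -1

lemma sg_even {i : ℤ} (h : Even i) : sg i = 1 := by simp [sg, h]

lemma sg_odd {i : ℤ} (h : Odd i) : sg i = -1 := by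
  have : ¬ Even i := Int.not_even_iff_odd.mpr h
  simp [sg, this]

@[simp] lemma sg_zero : sg 0 = 1 := by simp [sg]

@[simp] lemma sg_one : sg 1 = -1 := by
  apply sg_odd; exact odd_one

lemma sg_add (a b : ℤ) : sg (a + b) = sg a * sg b := by
  rcases Int.even_or_odd a with ha | ha <;> rcases Int.even_or_odd b with hb | hb
  · rw [sg_even (ha.add hb), sg_even ha, sg_even hb]; rfl
  · rw [sg_odd (ha.add_odd hb), sg_even ha, sg_odd hb]; rfl
  · rw [sg_odd (ha.add_even hb), sg_odd ha, sg_even hb]; rfl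
  · rw [sg_even (ha.add_odd hb), sg_odd ha, sg_odd hb]; rfl

@[simp] lemma sg_neg (a : ℤ) : sg (-a) = sg a := by
  simp [sg]

lemma sg_sub (a b : ℤ) : sg (a - b) = sg a * sg b := by
  rw [sub_eq_add_neg, sg_add, sg_neg]

@[simp] lemma sg_mul_self (a : ℤ) : sg a * sg a = 1 := by
  rcases Int.even_or_odd a with ha | ha
  · rw [sg_even ha]; rfl
  · rw [sg_odd ha]; rfl

lemma sg_sub_one (a : ℤ) : sg (a - 1) = - sg a := by
  rw [sg_sub, sg_one]; ring

lemma sg_add_one (a : ℤ) : sg (a + 1) = - sg a := by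
  rw [sg_add, sg_one]; ring

/-! ### Bigraded differential groups -/

/-- A group with a differential of bidegree `(-1, 0)` and bigraded subgroups. -/
structure BDG where
  X : Type u
  [grp : AddCommGroup X]
  D : X →+ X
  gr : ℤ → ℤ → AddSubgroup X
  D_mem : ∀ {n j : ℤ} {x : X}, x ∈ gr n j → D x ∈ gr (n - 1) j
  D_D : ∀ x, D (D x) = 0

attribute [instance] BDG.grp

/-- The homology in bidegree `(n, j)` vanishes. -/
def BDG.Van (C : BDG.{u}) (n j : ℤ) : Prop :=
  ∀ x ∈ C.gr n j, C.D x = 0 → ∃ y ∈ C.gr (n + 1) j, C.D y = x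

/-! ### DG algebras -/

/-- Bigraded, super-commutative DG algebras over a field. `ε` is the parity involution. -/
structure DGA (k : Type u) [Field k] where
  A : Type u
  [ring : Ring A]
  [alg : Algebra k A]
  ε : A →ₐ[k] A
  d : A →ₗ[k] A
  gr : ℤ → ℤ → Submodule k A
  one_mem : (1 : A) ∈ gr 0 0
  mul_mem : ∀ {i j i' j' : ℤ} {a b : A}, a ∈ gr i j → b ∈ gr i' j' → a * b ∈ gr (i + i') (j + j')
  neg_left : ∀ {i j : ℤ} {a : A}, i < 0 → a ∈ gr i j → a = 0
  neg_right : ∀ {i j : ℤ} {a : A}, j < 0 → a ∈ gr i j → a = 0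
  ε_gr : ∀ {i j : ℤ} {a : A}, a ∈ gr i j → ε a = sg i • a
  ε_ε : ∀ a, ε (ε a) = a
  ε_d : ∀ a, ε (d a) = - d (ε a)
  d_mem : ∀ {i j : ℤ} {a : A}, a ∈ gr i j → d a ∈ gr (i - 1) j
  d_d : ∀ a, d (d a) = 0
  d_mul : ∀ a b, d (a * b) = d a * b + ε a * d b
  comm_even : ∀ {i j : ℤ} {b : A}, b ∈ gr i j → Even i → ∀ a, a * b = b * a
  comm_odd : ∀ {i j : ℤ} {b : A}, b ∈ gr i j → Odd i → ∀ a, b * a = ε a * b

attribute [instance] DGA.ring DGA.alg

variable {k : Type u} [Field k]

namespace DGA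

lemma d_one (M : DGA k) : M.d 1 = 0 := by
  have h := M.d_mem M.one_mem
  exact M.neg_left (by norm_num) h

lemma ε_mem (M : DGA k) {i j : ℤ} {a : M.A} (h : a ∈ M.gr i j) : M.ε a ∈ M.gr i j := by
  rw [M.ε_gr h]
  exact (M.gr i j).toAddSubgroup.zsmul_mem h _

/-- Morphisms of DG algebras. -/
structure Hom (M N : DGA k) where
  f : M.A →ₐ[k] N.A
  f_ε : ∀ a, f (M.ε a) = N.ε (f a)
  f_d : ∀ a, f (M.d a) = N.d (f a)
  f_mem : ∀ {i j : ℤ} {a : M.A}, a ∈ M.gr i j → f a ∈ N.gr i j

@[ext] lemma Hom.ext {M N : DGA k} {g h : Hom M N} (H : ∀ a, g.f a = h.f a) : g = h := by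
  cases g; cases h
  congr
  exact AlgHom.ext H

/-- The identity. -/
def Hom.id (M : DGA k) : Hom M M where
  f := AlgHom.id k M.A
  f_ε _ := rfl
  f_d _ := rfl
  f_mem h := h

/-- Composition (`g` after `f`). -/
def Hom.comp {M N P : DGA k} (g : Hom N P) (f : Hom M N) : Hom M P where
  f := g.f.comp f.f
  f_ε a := by simp [f.f_ε, g.f_ε]
  f_d a := by simp [f.f_d, g.f_d]
  f_mem h := g.f_mem (f.f_mem h)

@[simp] lemma Hom.comp_apply {M N P : DGA k} (g : Hom N P) (f : Hom M N) (a : M.A) :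
    (g.comp f).f a = g.f (f.f a) := rfl

@[simp] lemma Hom.id_apply {M : DGA k} (a : M.A) : (Hom.id M).f a = a := rfl

/-- The DG algebra `k`. -/
def base (k : Type u) [Field k] : DGA k where
  A := k
  ε := AlgHom.id k k
  d := 0
  gr i j := if i = 0 ∧ j = 0 then ⊤ else ⊥
  one_mem := by simp
  mul_mem := by
    intro i j i' j' a b ha hb
    by_cases h : i = 0 ∧ j = 0
    · by_cases h' : i' = 0 ∧ j' = 0
      · simp [h, h']
      · rw [if_neg h'] at hb
        rw [(Submodule.mem_bot k).mp hb, mul_zero]; exact Submodule.zero_mem _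
    · rw [if_neg h] at ha
      rw [(Submodule.mem_bot k).mp ha, zero_mul]; exact Submodule.zero_mem _
  neg_left := by
    intro i j a hi ha
    rw [if_neg (by omega)] at ha
    exact (Submodule.mem_bot k).mp ha
  neg_right := by
    intro i j a hi ha
    rw [if_neg (by omega)] at ha
    exact (Submodule.mem_bot k).mp ha
  ε_gr := by
    intro i j a ha
    by_cases h : i = 0 ∧ j = 0
    · rw [h.1]; simp
    · rw [if_neg h] at ha
      rw [(Submodule.mem_bot k).mp ha]; simp
  ε_ε _ := rfl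
  ε_d a := by simp
  d_mem := by intro i j a _; simp
  d_d _ := by simp
  d_mul a b := by simp
  comm_even := by intro i j b _ _ a; exact mul_comm _ _
  comm_odd := by
    intro i j b hb hi a
    have h : ¬ (i = 0 ∧ j = 0) := by
      rintro ⟨rfl, -⟩; exact (by decide : ¬ Odd (0:ℤ)) hi
    rw [if_neg h] at hb
    rw [(Submodule.mem_bot k).mp hb]; simp

end DGA

/-! ### DG modules -/

/-- DG modules over a DG algebra. -/
structure DGMod (M : DGA k) where
  N : Type u
  [grp : AddCommGroup N]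
  [mod : Module M.A N]
  d : N →+ N
  gr : ℤ → ℤ → AddSubgroup N
  smul_mem : ∀ {i j i' j' : ℤ} {a : M.A} {x : N}, a ∈ M.gr i j → x ∈ gr i' j' →
    a • x ∈ gr (i + i') (j + j')
  d_mem : ∀ {i j : ℤ} {x : N}, x ∈ gr i j → d x ∈ gr (i - 1) j
  d_d : ∀ x, d (d x) = 0
  d_smul : ∀ (a : M.A) (x : N), d (a • x) = M.d a • x + M.ε a • d x

attribute [instance] DGMod.grp DGMod.mod

/-- The underlying bigraded differential group. -/
def DGMod.bdg {M : DGA k} (N : DGMod M) : BDG.{u} where
  X := N.N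
  D := N.d
  gr := N.gr
  D_mem := N.d_mem
  D_D := N.d_d

/-- A DG algebra over `M` as a DG `M`-module. -/
def DGMod.ofHom {M P : DGA k} (f : DGA.Hom M P) : DGMod M :=
  letI : Module M.A P.A := Module.compHom P.A (f.f : M.A →+* P.A)
  { N := P.A
    d := P.d.toAddMonoidHom
    gr := fun i j => (P.gr i j).toAddSubgroup
    smul_mem := fun {i j i' j' a x} ha hx => P.mul_mem (f.f_mem ha) hx
    d_mem := fun {i j x} hx => P.d_mem hx
    d_d := fun x => P.d_d x
    d_smul := fun a x => by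
      show P.d (f.f a * x) = f.f (M.d a) * x + f.f (M.ε a) * P.d x
      rw [P.d_mul, f.f_d, f.f_ε] }

lemma DGMod.ofHom_smul {M P : DGA k} (f : DGA.Hom M P) (a : M.A) (x : P.A) :
    (show (DGMod.ofHom f).N from (a • (show (DGMod.ofHom f).N from x))) = f.f a * x := rfl

/-- `M` as a module over itself. -/
def DGMod.self (M : DGA k) : DGMod M := DGMod.ofHom (DGA.Hom.id M)

/-! ### Twisting data : finite semifree DG modules -/

/-- Finite twisting data over `M`: a finite semifree right DG module with basis `I`, with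
`d e_α = ∑ β, e_β c β α`; minimality is built in (`c_zero`). -/
structure Twist (M : DGA k) where
  I : Type
  [fin : Fintype I]
  n : I → ℤ
  j : I → ℤ
  n_nonneg : ∀ α, 0 ≤ n α
  j_nonneg : ∀ α, 0 ≤ j α
  c : I → I → M.A
  c_mem : ∀ β α, c β α ∈ M.gr (n α - n β - 1) (j α - j β)
  c_zero : ∀ β α, c β α ≠ 0 → j β < j α
  mc : ∀ γ α, (∑ β, c γ β * c β α) + sg (n γ) • M.d (c γ α) = 0

attribute [instance] Twist.fin

/-- The twisted complex `G ⊗ N`. -/
def Twist.tens {M : DGA k} (G : Twist M) (N : DGMod M) : BDG.{u} where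
  X := G.I → N.N
  D :=
    { toFun := fun x β => sg (G.n β) • N.d (x β) + ∑ α, G.c β α • x α
      map_zero' := by
        funext β; simp
      map_add' := by
        intro x y; funext β
        simp only [Pi.add_apply, map_add, smul_add, Finset.sum_add_distrib]
        abel }
  gr n j :=
    { carrier := {x | ∀ α, x α ∈ N.gr (n - G.n α) (j - G.j α)}
      zero_mem' := fun α => AddSubgroup.zero_mem _
      add_mem' := fun hx hy α => AddSubgroup.add_mem _ (hx α) (hy α)
      neg_mem' := fun hx α => AddSubgroup.neg_mem _ (hx α) }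
  D_mem := by
    intro n j x hx β
    refine AddSubgroup.add_mem _ (AddSubgroup.zsmul_mem _ ?_ _) (AddSubgroup.sum_mem _ ?_)
    · have := N.d_mem (hx β)
      have e : n - G.n β - 1 = n - 1 - G.n β := by ring
      rw [e] at this
      exact this
    · intro α _
      have := N.smul_mem (G.c_mem β α) (hx α)
      have e1 : G.n α - G.n β - 1 + (n - G.n α) = n - 1 - G.n β := by ring
      have e2 : G.j α - G.j β + (j - G.j α) = j - G.j β := by ring
      rw [e1, e2] at this
      exact this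
  D_D := by
    intro x
    funext γ
    show sg (G.n γ) • N.d (sg (G.n γ) • N.d (x γ) + ∑ α, G.c γ α • x α)
      + ∑ β, G.c γ β • (sg (G.n β) • N.d (x β) + ∑ α, G.c β α • x α) = 0
    rw [map_add, map_zsmul, N.d_d, smul_zero, zero_add, map_sum]
    have h1 : ∀ α, N.d (G.c γ α • x α) = M.d (G.c γ α) • x α
        + sg (G.n α - G.n γ - 1) • (G.c γ α • N.d (x α)) := by
      intro α
      rw [N.d_smul, M.ε_gr (G.c_mem γ α), smul_assoc]
    simp only [h1, Finset.sum_add_distrib, smul_add, Finset.smul_sum]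
    have h2 : ∀ α, sg (G.n γ) • (sg (G.n α - G.n γ - 1) • (G.c γ α • N.d (x α)))
        + G.c γ α • (sg (G.n α) • N.d (x α)) = 0 := by
      intro α
      rw [smul_comm (G.c γ α) (sg (G.n α)), smul_smul, ← add_smul]
      have : sg (G.n γ) * sg (G.n α - G.n γ - 1) + sg (G.n α) = 0 := by
        rw [sg_sub_one, sg_sub]
        have := sg_mul_self (G.n γ)
        linear_combination (- sg (G.n α)) * this
      rw [this, zero_smul]
    have h3 : ∀ α, sg (G.n γ) • (M.d (G.c γ α) • x α) + (∑ β, (G.c γ β * G.c β α)) • x α = 0 := by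
      intro α
      rw [← smul_assoc, ← add_smul, add_comm, G.mc γ α, zero_smul]
    have h4 : ∑ β, ∑ α, G.c γ β • (G.c β α • x α) = ∑ α, (∑ β, (G.c γ β * G.c β α)) • x α := by
      rw [Finset.sum_comm]
      refine Finset.sum_congr rfl fun α _ => ?_
      rw [Finset.sum_smul]
      refine Finset.sum_congr rfl fun β _ => ?_
      rw [mul_smul]
    rw [h4]
    have h5 : (∑ α, sg (G.n γ) • (M.d (G.c γ α) • x α)
        + ∑ α, sg (G.n γ) • (sg (G.n α - G.n γ - 1) • (G.c γ α • N.d (x α))))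
        + (∑ β, G.c γ β • (sg (G.n β) • N.d (x β)) + ∑ α, (∑ β, (G.c γ β * G.c β α)) • x α)
        = ∑ α, (sg (G.n γ) • (M.d (G.c γ α) • x α) + (∑ β, (G.c γ β * G.c β α)) • x α)
        + ∑ α, (sg (G.n γ) • (sg (G.n α - G.n γ - 1) • (G.c γ α • N.d (x α)))
          + G.c γ α • (sg (G.n α) • N.d (x α))) := by
      simp only [Finset.sum_add_distrib]
      abel
    rw [h5, Finset.sum_eq_zero (fun α _ => h3 α), Finset.sum_eq_zero (fun α _ => h2 α), add_zero]

end FV
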