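import Mathlib

/-!
# MP_51fbee_al : the definitions used in the statement

Standard graded algebras, graded free resolutions, vanishing of graded `Tor`, the residue field and
the Frobenius-Veronese module `R^{(q)}`.
-/

namespace FV

universe u

variable {k : Type u} [Field k] {R : Type u} [CommRing R] [Algebra k R]
  (𝒜 : ℕ → Submodule k R) [GradedAlgebra 𝒜]

/-- The standard graded algebra hypothesis. -/
structure StdGraded : Prop where
  zero : ∀ x ∈ 𝒜 0, ∃ c : k, x = algebraMap k R c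
  nontriv : Nontrivial R
  fin : Module.Finite k (𝒜 1)
  gen : Algebra.adjoin k (𝒜 1 : Set R) = ⊤

/-- The irrelevant ideal. -/
def irr : Ideal R := (HomogeneousIdeal.irrelevant 𝒜).toIdeal

/-- The grading of `R` indexed by the integers. -/
def grZ (j : ℤ) : Submodule k R := if 0 ≤ j then 𝒜 j.toNat else ⊥

/-! ### Graded free resolutions and graded `Tor` -/

/-- Homogeneous elements of degree `m` in the graded free module with basis `ι`, the basis element
`b` having degree `deg b`. -/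
def FreeGr {ι : Type u} (deg : ι → ℤ) (m : ℤ) : AddSubgroup (ι →₀ R) where
  carrier := {x | ∀ b, x b ∈ grZ 𝒜 (m - deg b)}
  zero_mem' := fun b => by simp
  add_mem' := fun hx hy b => by
    rw [Finsupp.add_apply]; exact Submodule.add_mem _ (hx b) (hy b)
  neg_mem' := fun hx b => by
    rw [Finsupp.neg_apply]; exact Submodule.neg_mem _ (hx b)

/-- A graded free resolution `⋯ → F₁ → F₀ → N → 0` of the (nonnegatively) graded module `N`, `ℳ`,
by graded free modules with generators in nonnegative degrees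
(exactness is required in each degree). -/
structure GrFreeRes (N : Type u) [AddCommGroup N] [Module R N] (ℳ : ℤ → AddSubgroup N) where
  ι : ℕ → Type u
  deg : ∀ n, ι n → ℤ
  deg_nonneg : ∀ n b, 0 ≤ deg n b
  d : ∀ n, (ι (n + 1) →₀ R) →ₗ[R] (ι n →₀ R)
  aug : (ι 0 →₀ R) →ₗ[R] N
  d_mem : ∀ n m, ∀ x ∈ FreeGr 𝒜 (deg (n + 1)) m, d n x ∈ FreeGr 𝒜 (deg n) m
  aug_mem : ∀ m, ∀ x ∈ FreeGr 𝒜 (deg 0) m, aug x ∈ ℳ m
  aug_d : ∀ x, aug (d 0 x) = 0
  d_d : ∀ n x, d n (d (n + 1) x) = 0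
  surj : ∀ m, ∀ y ∈ ℳ m, ∃ x ∈ FreeGr 𝒜 (deg 0) m, aug x = y
  exact_zero : ∀ m, ∀ x ∈ FreeGr 𝒜 (deg 0) m, aug x = 0 →
    ∃ y ∈ FreeGr 𝒜 (deg 1) m, d 0 y = x
  exact_succ : ∀ n m, ∀ x ∈ FreeGr 𝒜 (deg (n + 1)) m, d n x = 0 →
    ∃ y ∈ FreeGr 𝒜 (deg (n + 2)) m, d (n + 1) y = x

variable {𝒜} in
/-- `Tor_n(N, k)_m = 0`, computed as `H_n(F ⊗ k)_m` from the graded free resolution `F` of `N`
(`F_n ⊗ k = F_n / 𝔪 F_n`, and `𝔪 F_n` consists of the vectors with all coordinates in `𝔪`). -/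
def GrFreeRes.TorVan {N : Type u} [AddCommGroup N] [Module R N] {ℳ : ℤ → AddSubgroup N}
    (F : GrFreeRes 𝒜 N ℳ) : ℕ → ℤ → Prop
  | 0, m => ∀ x ∈ FreeGr 𝒜 (F.deg 0) m,
      ∃ y ∈ FreeGr 𝒜 (F.deg 1) m, ∀ b, (x - F.d 0 y) b ∈ irr 𝒜
  | n + 1, m => ∀ x ∈ FreeGr 𝒜 (F.deg (n + 1)) m, (∀ b, (F.d n x) b ∈ irr 𝒜) →
      ∃ y ∈ FreeGr 𝒜 (F.deg (n + 2)) m, ∀ b, (x - F.d (n + 1) y) b ∈ irr 𝒜

/-- The grading of the residue field `k = R / 𝔪`: everything in degree `0`. -/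
def resGr (m : ℤ) : AddSubgroup (R ⧸ irr 𝒜) := if m = 0 then ⊤ else ⊥

/-! ### The module `R^{(q)}` -/

/-- `R` with the action `a • x = a ^ q * x`, `q = p ^ e`. -/
def FrobR (R : Type u) (_p _e : ℕ) : Type u := R

instance (p e : ℕ) : AddCommGroup (FrobR R p e) := inferInstanceAs (AddCommGroup R)

instance (p e : ℕ) [ExpChar R p] : Module R (FrobR R p e) :=
  Module.compHom R (iterateFrobenius R p e)

/-- The graded pieces of `⊕ R_{qj}` as additive subgroups of `R` with the Frobenius action. -/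
def verGr (p e : ℕ) (j : ℤ) : AddSubgroup (FrobR R p e) :=
  (grZ 𝒜 ((p ^ e : ℕ) * j)).toAddSubgroup

/-- The `R`-submodule `R^{(q)} = ⊕_j R_{qj}` of `R` with the Frobenius action. -/
def verSub (p e : ℕ) [ExpChar R p] : Submodule R (FrobR R p e) :=
  Submodule.span R (⋃ j : ℤ, (verGr 𝒜 p e j : Set (FrobR R p e)))

/-- The grading of `R^{(q)}`: `R_{qj}` in degree `j`. -/
def verSubGr (p e : ℕ) [ExpChar R p] (j : ℤ) : AddSubgroup (verSub 𝒜 p e) :=
  (verGr 𝒜 p e j).comap (verSub 𝒜 p e).subtype.toAddMonoidHom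

end FV
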