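import Pool.Agent.helper92.FV.AdjO
import Pool.Agent.helper92.FV.Stmt

/-!
# MP_51fbee_al : steps, chains, exact sequences, Koszul complexes, Frobenius-Veronese functors,
models, graded free resolutions.
-/

namespace FV

universe u

variable {k : Type u} [Field k]

/-! ### Steps and chains -/

namespace DGA

/-- `g : N → N'` kills one variable `v` of bidegree `(i, j)`; the variable is a nonzerodivisor if
`i` is even and its annihilator is `v N` if `i` is odd. -/
structure IsStep {N N' : DGA k} (g : Hom N N') (i j : ℤ) (v : N.A) : Prop where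
  mem : v ∈ N.gr i j
  dv : N.d v = 0
  gv : g.f v = 0
  even : Even i → ∀ x, v * x = 0 → x = 0
  odd : Odd i → ∀ x, v * x = 0 ↔ g.f x = 0
  ker : ∀ n m, ∀ x ∈ N.gr n m, g.f x = 0 → ∃ y ∈ N.gr (n - i) (m - j), v * y = x
  surj : ∀ n m, ∀ x ∈ N'.gr n m, ∃ y ∈ N.gr n m, g.f y = x
  surj_tot : Function.Surjective g.f

/-- A chain of steps from `M` to `N`, with the list of bidegrees of the killed variables
(last killed first). -/
inductive Chain (M : DGA k) : (N : DGA k) → Hom M N → List (ℤ × ℤ) → Prop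
  | nil : Chain M M (Hom.id M) []
  | cons {N N' : DGA k} {f : Hom M N} {L : List (ℤ × ℤ)} (g : Hom N N') (i j : ℤ) (v : N.A) :
      Chain M N f L → IsStep g i j v → Chain M N' (g.comp f) ((i, j) :: L)

/-- A chain of steps killing images of given elements of bidegree `(0, 1)`. -/
inductive XChain (M : DGA k) : (N : DGA k) → Hom M N → List M.A → Prop
  | nil : XChain M M (Hom.id M) []
  | cons {N N' : DGA k} {f : Hom M N} {xs : List M.A} (g : Hom N N') (x : M.A) :
      x ∈ M.gr 0 1 → XChain M N f xs → IsStep g 0 1 (f.f x) → XChain M N' (g.comp f) (x :: xs)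

/-- Connectedness: nothing outside the cone `0 ≤ n < m` except the scalars. -/
structure Conn (M : DGA k) : Prop where
  zero : ∀ x ∈ M.gr 0 0, ∃ c : k, x = algebraMap k M.A c
  inj : Function.Injective (algebraMap k M.A)
  cone : ∀ n m, ∀ x ∈ M.gr n m, x ≠ 0 → (n = 0 ∧ m = 0) ∨ (0 ≤ n ∧ n < m)
  fin : ∀ n m, Module.Finite k (M.gr n m)

/-- A functor adjoining one variable of bidegree `(i, j)`. -/
structure AdjFunctor (k : Type u) [Field k] (i j : ℤ) where
  obj : (A : DGA k) → (z : A.A) → AdjData A i j z → DGA k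
  inc : (A : DGA k) → (z : A.A) → (h : AdjData A i j z) → Hom A (obj A z h)
  var : (A : DGA k) → (z : A.A) → (h : AdjData A i j z) → (obj A z h).A
  inc_inj : ∀ A z h, Function.Injective (inc A z h).f
  inc_mem : ∀ A z h n m a, (inc A z h).f a ∈ (obj A z h).gr n m → a ∈ A.gr n m
  var_mem : ∀ A z h, var A z h ∈ (obj A z h).gr i j
  d_var : ∀ A z h, (obj A z h).d (var A z h) = (inc A z h).f z
  /-- universal property -/
  lift : ∀ A z h (B : DGA k) (f : Hom A B) (b : B.A), b ∈ B.gr i j → B.d b = f.f z →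
    (Odd i → b * b = 0) →
    ∃ g : Hom (obj A z h) B, (∀ a, g.f ((inc A z h).f a) = f.f a) ∧ g.f (var A z h) = b
  /-- functoriality -/
  map : ∀ {A B : DGA k} (f : Hom A B) (z : A.A) (h : AdjData A i j z)
    (h' : AdjData B i j (f.f z)), Hom (obj A z h) (obj B (f.f z) h')
  map_inc : ∀ {A B : DGA k} (f : Hom A B) z h h' (a : A.A),
    (map f z h h').f ((inc A z h).f a) = (inc B (f.f z) h').f (f.f a)
  map_var : ∀ {A B : DGA k} (f : Hom A B) z h h', (map f z h h').f (var A z h) = var B (f.f z) h'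
  map_id : ∀ (A : DGA k) z h, map (Hom.id A) z h h = Hom.id (obj A z h)
  map_comp : ∀ {A B C : DGA k} (f : Hom A B) (g : Hom B C) z h h' h'',
    (map g (f.f z) h' h'').comp (map f z h h') = map (g.comp f) z h h''
  map_step : ∀ {A B : DGA k} (f : Hom A B) z h h' (i' j' : ℤ) (v : A.A),
    0 ≤ i' → 1 ≤ j' → IsStep f i' j' v → IsStep (map f z h h') i' j' ((inc A z h).f v)
  /-- if `z = 0`, the variable can be killed -/
  kill : ∀ (A : DGA k) (z : A.A) (h : AdjData A i j z), z = 0 →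
    ∃ g : Hom (obj A z h) A, (∀ a, g.f ((inc A z h).f a) = a) ∧ IsStep g i j (var A z h)
  /-- the pieces of internal degree `< j` -/
  piece_lt : ∀ A z h n m, m < j → ∀ x ∈ (obj A z h).gr n m, ∃ a ∈ A.gr n m, (inc A z h).f a = x
  /-- the pieces of internal degree `j` -/
  piece_eq : ∀ A z h n, Conn A → ∀ x ∈ (obj A z h).gr n j,
    ∃ a ∈ A.gr n j, ∃ c : k, (c ≠ 0 → n = i) ∧ x = (inc A z h).f a + c • var A z h
  piece_inj : ∀ (A : DGA k) z h (a : A.A) (c : k), Conn A →
    (inc A z h).f a + c • var A z h = 0 → a = 0 ∧ c = 0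
  conn : ∀ A z h, i < j → Conn A → Conn (obj A z h)

end DGA

/-! ### Exact sequences of DG modules, with shifts -/

/-- `ε^a`. -/
def DGA.εp (M : DGA k) (a : ℤ) (m : M.A) : M.A := if Even a then m else M.ε m

/-- Short exact sequence `0 → N1 → N2 → N3 → 0` with maps of bidegrees `(a, b)`, `(a', b')`. -/
structure SES {M : DGA k} (N1 N2 N3 : DGMod M) (a b a' b' : ℤ) where
  f : N1.N →+ N2.N
  g : N2.N →+ N3.N
  f_mem : ∀ n m, ∀ x ∈ N1.gr n m, f x ∈ N2.gr (n + a) (m + b)
  g_mem : ∀ n m, ∀ x ∈ N2.gr n m, g x ∈ N3.gr (n + a') (m + b')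
  f_d : ∀ x, N2.d (f x) = sg a • f (N1.d x)
  g_d : ∀ x, N3.d (g x) = sg a' • g (N2.d x)
  f_smul : ∀ (r : M.A) x, f (r • x) = M.εp a r • f x
  g_smul : ∀ (r : M.A) x, g (r • x) = M.εp a' r • g x
  inj : ∀ n m, ∀ x ∈ N1.gr n m, f x = 0 → x = 0
  gf : ∀ x, g (f x) = 0
  exact : ∀ n m, ∀ x ∈ N2.gr n m, g x = 0 → ∃ y ∈ N1.gr (n - a) (m - b), f y = x
  surj : ∀ n m, ∀ x ∈ N3.gr n m, ∃ y ∈ N2.gr (n - a') (m - b'), g y = x

/-- Surjective map of DG modules with acyclic kernel, in internal degrees `≤ J`. -/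
structure SQI {M : DGA k} (X Y : DGMod M) (J : ℤ) where
  φ : X.N →+ Y.N
  φ_mem : ∀ n m, ∀ x ∈ X.gr n m, φ x ∈ Y.gr n m
  φ_d : ∀ x, Y.d (φ x) = φ (X.d x)
  φ_smul : ∀ (r : M.A) x, φ (r • x) = r • φ x
  surj : ∀ n m, m ≤ J → ∀ y ∈ Y.gr n m, ∃ x ∈ X.gr n m, φ x = y
  ker : ∀ n m, m ≤ J → ∀ x ∈ X.gr n m, φ x = 0 → X.d x = 0 →
    ∃ y ∈ X.gr (n + 1) m, φ y = 0 ∧ X.d y = x

/-! ### Resolutions of `k` over `M` -/

/-- `G` is a semifree resolution of `k` in internal degrees `≤ J`. -/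
structure Twist.IsRes {M : DGA k} (G : Twist M) (J : ℤ) : Prop where
  orig : ∃ o : G.I, G.n o = 0 ∧ G.j o = 0 ∧ ∀ α, α ≠ o → 1 ≤ G.n α ∧ G.n α ≤ G.j α
  van : ∀ n j, j ≤ J → (n, j) ≠ ((0 : ℤ), (0 : ℤ)) → (G.tens (DGMod.self M)).Van n j

/-- There is a basis element of bidegree `(n, b)`; i.e. `Tor_n(k, k)_b ≠ 0`. -/
def Twist.Has {M : DGA k} (G : Twist M) (n b : ℤ) : Prop := ∃ α : G.I, G.n α = n ∧ G.j α = b

/-! ### Koszul complexes -/

/-- The cone of multiplication by an element `x` of bidegree `(0, 1)`. -/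
def DGMod.cone {M : DGA k} (x : M.A) (hx : x ∈ M.gr 0 1) (X : DGMod M) : DGMod M :=
  letI inst : Module M.A (X.N × X.N) :=
    { smul := fun m p => (m • p.1, M.ε m • p.2)
      one_smul := fun p => by
        show ((1 : M.A) • p.1, M.ε 1 • p.2) = p
        rw [map_one, one_smul, one_smul]
      mul_smul := fun a b p => by
        show ((a * b) • p.1, M.ε (a * b) • p.2) = (a • b • p.1, M.ε a • M.ε b • p.2)
        rw [map_mul, mul_smul, mul_smul]
      smul_zero := fun a => by
        show (a • (0 : X.N), M.ε a • (0 : X.N)) = 0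
        rw [smul_zero, smul_zero]; rfl
      smul_add := fun a p q => by
        show (a • (p.1 + q.1), M.ε a • (p.2 + q.2)) = (a • p.1 + a • q.1, M.ε a • p.2 + M.ε a • q.2)
        rw [smul_add, smul_add]
      add_smul := fun a b p => by
        show ((a + b) • p.1, M.ε (a + b) • p.2) = (a • p.1 + b • p.1, M.ε a • p.2 + M.ε b • p.2)
        rw [map_add, add_smul, add_smul]
      zero_smul := fun p => by
        show ((0 : M.A) • p.1, M.ε 0 • p.2) = 0
        rw [map_zero, zero_smul, zero_smul]; rfl }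
  { N := X.N × X.N
    mod := inst
    d :=
      { toFun := fun p => (X.d p.1 + x • p.2, - X.d p.2)
        map_zero' := by simp
        map_add' := fun p q => by
          ext
          · simp; abel
          · simp; abel }
    gr := fun n m =>
      { carrier := {p | p.1 ∈ X.gr n m ∧ p.2 ∈ X.gr (n - 1) (m - 1)}
        zero_mem' := ⟨AddSubgroup.zero_mem _, AddSubgroup.zero_mem _⟩
        add_mem' := fun hp hq => ⟨AddSubgroup.add_mem _ hp.1 hq.1, AddSubgroup.add_mem _ hp.2 hq.2⟩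
        neg_mem' := fun hp => ⟨AddSubgroup.neg_mem _ hp.1, AddSubgroup.neg_mem _ hp.2⟩ }
    smul_mem := fun {i j i' j' a p} ha hp => by
      refine ⟨X.smul_mem ha hp.1, ?_⟩
      have := X.smul_mem (M.ε_mem ha) hp.2
      rwa [show i + (i' - 1) = i + i' - 1 by ring, show j + (j' - 1) = j + j' - 1 by ring] at this
    d_mem := fun {i j p} hp => by
      refine ⟨AddSubgroup.add_mem _ (X.d_mem hp.1) ?_, ?_⟩
      · have := X.smul_mem hx hp.2
        rwa [show 0 + (i - 1) = i - 1 by ring, show 1 + (j - 1) = j by ring] at this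
      · exact AddSubgroup.neg_mem _ (X.d_mem hp.2)
    d_d := fun p => by
      have hx0 : M.d x = 0 := M.neg_left (by norm_num) (M.d_mem hx)
      have hεx : M.ε x = x := by rw [M.ε_gr hx]; simp
      show (X.d (X.d p.1 + x • p.2) + x • (- X.d p.2), - X.d (- X.d p.2)) = 0
      rw [map_add, X.d_d, X.d_smul, hx0, hεx, map_neg, X.d_d]
      simp
    d_smul := fun a p => by
      have hεx : M.ε x = x := by rw [M.ε_gr hx]; simp
      have hc : M.ε a * x = x * M.ε a := M.comm_even hx Even.zero (M.ε a)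
      show (X.d (a • p.1) + x • (M.ε a • p.2), - X.d (M.ε a • p.2)) =
        (M.d a • p.1 + M.ε a • (X.d p.1 + x • p.2),
          M.ε (M.d a) • p.2 + M.ε (M.ε a) • (- X.d p.2))
      rw [X.d_smul, X.d_smul, M.ε_d, M.ε_ε, smul_add, smul_smul, smul_smul, hc, neg_smul, smul_neg]
      ext
      · simp only; abel
      · simp only; abel }

/-- The Koszul complex on a list of elements of bidegree `(0, 1)`. -/
def DGMod.kos {M : DGA k} : (xs : List M.A) → (∀ x ∈ xs, x ∈ M.gr 0 1) → DGMod M → DGMod M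
  | [], _, X => X
  | x :: xs, h, X =>
    DGMod.cone x (h x (by simp)) (DGMod.kos xs (fun y hy => h y (by simp [hy])) X)

/-! ### Graded rings -/

section Ring

variable {R : Type u} [CommRing R] [Algebra k R] (𝒜 : ℕ → Submodule k R) [GradedAlgebra 𝒜]

/-- A graded ring as a DG algebra in homological degree `0`. -/
def ofRing : DGA k where
  A := R
  ε := AlgHom.id k R
  d := 0
  gr i j := if i = 0 ∧ 0 ≤ j then 𝒜 j.toNat else ⊥
  one_mem := by simpa using SetLike.GradedOne.one_mem (A := 𝒜)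
  mul_mem := by
    intro i j i' j' a b ha hb
    by_cases h : i = 0 ∧ 0 ≤ j
    · by_cases h' : i' = 0 ∧ 0 ≤ j'
      · rw [if_pos h] at ha
        rw [if_pos h'] at hb
        rw [if_pos ⟨by omega, by omega⟩, show (j + j').toNat = j.toNat + j'.toNat by omega]
        exact SetLike.GradedMul.mul_mem ha hb
      · rw [if_neg h'] at hb
        rw [(Submodule.mem_bot k).mp hb, mul_zero]; exact Submodule.zero_mem _
    · rw [if_neg h] at ha
      rw [(Submodule.mem_bot k).mp ha, zero_mul]; exact Submodule.zero_mem _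
  neg_left := by
    intro i j a hi ha
    rw [if_neg (by omega)] at ha
    exact (Submodule.mem_bot k).mp ha
  neg_right := by
    intro i j a hi ha
    rw [if_neg (by omega)] at ha
    exact (Submodule.mem_bot k).mp ha
  ε_gr := by
    intro i j a ha
    by_cases h : i = 0 ∧ 0 ≤ j
    · rw [h.1]; simp
    · rw [if_neg h] at ha
      rw [(Submodule.mem_bot k).mp ha]; simp
  ε_ε _ := rfl
  ε_d a := by simp
  d_mem := by intro i j a _; simp
  d_d _ := by simp
  d_mul a b := by simp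
  comm_even := by intro i j b _ _ a; exact mul_comm _ _
  comm_odd := by
    intro i j b hb hi a
    have h : ¬ (i = 0 ∧ 0 ≤ j) := by
      rintro ⟨rfl, -⟩; exact (by decide : ¬ Odd (0:ℤ)) hi
    rw [if_neg h] at hb
    rw [(Submodule.mem_bot k).mp hb]; simp

variable {𝒜}

lemma mem_ofRing {j : ℕ} {r : R} (h : r ∈ 𝒜 j) : (r : (ofRing 𝒜).A) ∈ (ofRing 𝒜).gr 0 j := by
  show r ∈ (if (0:ℤ) = 0 ∧ (0:ℤ) ≤ (j:ℤ) then 𝒜 (j:ℤ).toNat else ⊥ : Submodule k R)
  simpa using h

lemma mem_ofRing_one {r : R} (h : r ∈ 𝒜 1) : (r : (ofRing 𝒜).A) ∈ (ofRing 𝒜).gr 0 1 := by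
  have := mem_ofRing h
  simpa using this

/-- Restriction of scalars along `π : M → R`. -/
def DGMod.res {M : DGA k} (π : DGA.Hom M (ofRing 𝒜)) (X : DGMod (ofRing 𝒜)) : DGMod M :=
  letI : Module M.A X.N := Module.compHom X.N (π.f : M.A →+* (ofRing 𝒜).A)
  { N := X.N
    d := X.d
    gr := X.gr
    smul_mem := fun {i j i' j' a x} ha hx => X.smul_mem (π.f_mem ha) hx
    d_mem := X.d_mem
    d_d := X.d_d
    d_smul := fun a x => by
      show X.d (π.f a • x) = π.f (M.d a) • x + π.f (M.ε a) • X.d x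
      rw [X.d_smul, π.f_d, π.f_ε] }

/-- `R` acts on complexes over `R`. -/
instance DGMod.modR (X : DGMod (ofRing 𝒜)) : Module R X.N := X.mod

/-- a morphism to `R` as a ring homomorphism -/
def DGA.Hom.toR {M : DGA k} (π : DGA.Hom M (ofRing 𝒜)) : M.A →+* R :=
  (π.f : M.A →+* (ofRing 𝒜).A)

lemma DGA.Hom.toR_mem {M : DGA k} (π : DGA.Hom M (ofRing 𝒜)) {i j : ℤ} {m : M.A}
    (hm : m ∈ M.gr i j) : π.toR m ∈ (if i = 0 ∧ 0 ≤ j then 𝒜 j.toNat else ⊥ : Submodule k R) :=
  π.f_mem hm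

lemma DGA.Hom.toR_d {M : DGA k} (π : DGA.Hom M (ofRing 𝒜)) (m : M.A) : π.toR (M.d m) = 0 :=
  π.f_d m

lemma DGA.Hom.toR_ε {M : DGA k} (π : DGA.Hom M (ofRing 𝒜)) (m : M.A) :
    π.toR (M.ε m) = π.toR m := π.f_ε m

lemma DGMod.smulR_mem (X : DGMod (ofRing 𝒜)) {j : ℕ} {r : R} (hr : r ∈ 𝒜 j) {i' j' : ℤ} {x : X.N}
    (hx : x ∈ X.gr i' j') : (r • x : X.N) ∈ X.gr i' (j' + j) := by
  have h0 := mem_ofRing hr
  have h := X.smul_mem h0 hx
  rw [zero_add, add_comm] at h
  exact h

lemma DGMod.d_smulR (X : DGMod (ofRing 𝒜)) (r : R) (x : X.N) : X.d (r • x) = r • X.d x := by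
  have h := X.d_smul (r : (ofRing 𝒜).A) x
  have h0 : ((ofRing 𝒜).d (r : (ofRing 𝒜).A)) • x = 0 := zero_smul (ofRing 𝒜).A x
  rw [h0, zero_add] at h
  exact h

/-- The functor `V_a(q, -)` from complexes of graded `R`-modules to DG modules over `M`, where
`M` acts through `M → R` and the `q`-th power map, `q = p ^ e`. -/
def DGMod.ver {M : DGA k} (π : DGA.Hom M (ofRing 𝒜)) (p e : ℕ) [ExpChar R p] (a : ℤ)
    (X : DGMod (ofRing 𝒜)) : DGMod M :=
  letI : Module M.A X.N := Module.compHom X.N ((iterateFrobenius R p e).comp π.toR)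
  { N := X.N
    d := X.d
    gr := fun l j => X.gr l ((p ^ e : ℕ) * j + a)
    smul_mem := fun {i j i' j' m x} hm hx => by
      have h1 := π.toR_mem hm
      show (iterateFrobenius R p e (π.toR m)) • x ∈ _
      rw [iterateFrobenius_def]
      by_cases h : i = 0 ∧ 0 ≤ j
      · rw [if_pos h] at h1
        have h2 : (π.toR m) ^ (p ^ e) ∈ 𝒜 (p ^ e * j.toNat) := by
          have := SetLike.pow_mem_graded (p ^ e) h1
          simpa [smul_eq_mul] using this
        have h3 := X.smulR_mem h2 hx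
        have e1 : i' = i + i' := by rw [h.1]; ring
        have e2 : ((p ^ e : ℕ) * j' + a) + ((p ^ e * j.toNat : ℕ) : ℤ) = (p ^ e : ℕ) * (j + j') + a := by
          push_cast
          rw [Int.toNat_of_nonneg h.2]; ring
        rw [e2, e1] at h3
        exact h3
      · rw [if_neg h] at h1
        rw [(Submodule.mem_bot k).mp h1, zero_pow (expChar_pow_pos R p e).ne', zero_smul]
        exact AddSubgroup.zero_mem _
    d_mem := fun {i j x} hx => X.d_mem hx
    d_d := X.d_d
    d_smul := fun m x => by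
      show X.d ((iterateFrobenius R p e (π.toR m)) • x)
        = (iterateFrobenius R p e (π.toR (M.d m))) • x
          + (iterateFrobenius R p e (π.toR (M.ε m))) • X.d x
      rw [π.toR_d, π.toR_ε, map_zero, zero_smul, zero_add, X.d_smulR] }

end Ring

end FV
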