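import Pool.Agent.helper92.FV.Defs

/-!
# MP_51fbee_al : models of `R`, graded free resolutions, `Tor`, Frobenius-Veronese module.
-/

namespace FV

universe u

variable {k : Type u} [Field k] {R : Type u} [CommRing R] [Algebra k R]
  (𝒜 : ℕ → Submodule k R) [GradedAlgebra 𝒜]

variable {𝒜} in
/-- A graded `R`-module as a complex concentrated in homological degree `0`. -/
def DGMod.ofMod (N : Type u) [AddCommGroup N] [Module R N] (ℳ : ℤ → AddSubgroup N)
    (hℳ : ∀ (i : ℕ) (j : ℤ) (a : R) (x : N), a ∈ 𝒜 i → x ∈ ℳ j → a • x ∈ ℳ (j + i)) :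
    DGMod (ofRing 𝒜) :=
  letI : Module (ofRing 𝒜).A N := (inferInstance : Module R N)
  { N := N
    d := 0
    gr := fun i j => if i = 0 then ℳ j else ⊥
    smul_mem := fun {i j i' j' a x} ha hx => by
      have ha' : (a : R) ∈ (if i = 0 ∧ 0 ≤ j then 𝒜 j.toNat else ⊥ : Submodule k R) := ha
      by_cases h : i = 0 ∧ 0 ≤ j
      · rw [if_pos h] at ha'
        by_cases h' : i' = 0
        · rw [if_pos h'] at hx
          rw [if_pos (by omega)]
          have := hℳ _ _ _ _ ha' hx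
          rwa [Int.toNat_of_nonneg h.2, add_comm j' j] at this
        · rw [if_neg h'] at hx
          have hx0 : x = 0 := hx
          rw [hx0, smul_zero]
          exact AddSubgroup.zero_mem _
      · rw [if_neg h] at ha'
        have ha0 : a = 0 := (Submodule.mem_bot k).mp ha'
        rw [ha0, zero_smul]
        exact AddSubgroup.zero_mem _
    d_mem := fun {i j x} hx => by simp
    d_d := fun x => rfl
    d_smul := fun a x => by
      show (0 : N) = ((ofRing 𝒜).d a) • x + ((ofRing 𝒜).ε a) • (0 : N)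
      have : ((ofRing 𝒜).d a) = 0 := rfl
      rw [this, zero_smul, smul_zero, add_zero] }

/-! ### Models -/

variable {𝒜}

/-- Relative cycles of `π : M → R`. -/
def RC {M : DGA k} (π : DGA.Hom M (ofRing 𝒜)) (n m : ℤ) (z : M.A) : Prop :=
  z ∈ M.gr n m ∧ M.d z = 0 ∧ π.f z = 0

/-- `π : M → R` is a quasi-isomorphism in internal degree `m`. -/
structure QuasiAt {M : DGA k} (π : DGA.Hom M (ofRing 𝒜)) (m : ℤ) : Prop where
  surj : ∀ r ∈ (ofRing 𝒜).gr 0 m, ∃ a ∈ M.gr 0 m, π.f a = r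
  exact : ∀ n z, RC π n m z → ∃ y ∈ M.gr (n + 1) m, M.d y = z

variable (𝒜) in
/-- DG algebras over `R` built from the variables `ys ↦ xs` of bidegree `(0, 1)` and finitely many
variables of bidegrees `vars`, of internal degree `≤ J`. -/
structure PreModel (xs : List R) (J : ℤ) where
  M : DGA k
  π : DGA.Hom M (ofRing 𝒜)
  conn : M.Conn
  vars : List (ℤ × ℤ)
  vars_le : ∀ v ∈ vars, 1 ≤ v.1 ∧ v.1 < v.2 ∧ v.2 ≤ J
  ys : List M.A
  ys_mem : ∀ y ∈ ys, y ∈ M.gr 0 1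
  ys_map : ys.map (fun y => π.toR y) = xs
  chain : ∃ (Mb : DGA k) (f : DGA.Hom M Mb) (g : DGA.Hom Mb (DGA.base k)),
    DGA.XChain M Mb f ys ∧ DGA.Chain Mb (DGA.base k) g vars
  marks : ∀ v ∈ vars,
    (∃ (L : List (ℤ × ℤ)) (X : DGA k) (f : DGA.Hom M X) (κ : DGA.Hom X (DGA.base k)) (v0 : X.A),
      (∀ w ∈ L, w = (0, 1) ∨ w ∈ vars) ∧ DGA.Chain M X f L ∧ DGA.IsStep κ v.1 v.2 v0 ∧
      ∀ z, RC π v.1 v.2 z → f.f z = 0) ∨
    (Even v.1 ∧ ∃ m : ℤ, 2 ≤ m ∧ (m * v.1 + 1, m * v.2) ∈ vars)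

lemma kos_mem (xs : List R) (hxs : ∀ x ∈ xs, x ∈ 𝒜 1) :
    ∀ x ∈ (show List (ofRing 𝒜).A from xs), x ∈ (ofRing 𝒜).gr 0 1 := by
  intro x hx
  have h := mem_ofRing_one (hxs x hx)
  exact h

/-- The Koszul complex of `R` on `xs`. -/
def kosR (xs : List R) (hxs : ∀ x ∈ xs, x ∈ 𝒜 1) : DGMod (ofRing 𝒜) :=
  DGMod.kos (M := ofRing 𝒜) xs (kos_mem xs hxs) (DGMod.self (ofRing 𝒜))

end FV
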