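import Pool.Agent.helper92.FV.LES

/-! # MP_51fbee_al, module ST : exact sequences attached to steps; chains over `k` -/

namespace FV

universe u

variable {k : Type u} [Field k]

theorem IsStep.ses_even {M N N' : DGA k} (f : DGA.Hom M N) (g : DGA.Hom N N') {i j : ℤ} {v : N.A}
    (hi : Even i) (h : DGA.IsStep g i j v) :
    Nonempty (SES (DGMod.ofHom f) (DGMod.ofHom f) (DGMod.ofHom (g.comp f)) i j 0 0) := by
  have hεv : N.ε v = v := by rw [N.ε_gr h.mem, sg_even hi, one_smul]
  refine ⟨{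
    f := AddMonoidHom.mulLeft v
    g := (g.f : N.A →+* N'.A).toAddMonoidHom
    f_mem := ?_
    g_mem := ?_
    f_d := ?_
    g_d := ?_
    f_smul := ?_
    g_smul := ?_
    inj := ?_
    gf := ?_
    exact := ?_
    surj := ?_ }⟩
  · intro n m x hx
    have := N.mul_mem h.mem hx
    rwa [add_comm i n, add_comm j m] at this
  · intro n m x hx
    rw [add_zero, add_zero]
    exact g.f_mem hx
  · intro (x : N.A)
    show N.d (v * x) = sg i • (v * N.d x)
    rw [N.d_mul, h.dv, zero_mul, zero_add, hεv, sg_even hi, one_smul]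
  · intro (x : N.A)
    show N'.d (g.f x) = sg 0 • g.f (N.d x)
    rw [sg_zero, one_smul, g.f_d]
  · intro r (x : N.A)
    show v * (f.f r * x) = f.f (M.εp i r) * (v * x)
    rw [DGA.εp, if_pos hi, ← mul_assoc, ← mul_assoc, N.comm_even h.mem hi]
  · intro r (x : N.A)
    show g.f (f.f r * x) = g.f (f.f (M.εp 0 r)) * g.f x
    rw [DGA.εp, if_pos Even.zero, map_mul]
  · intro n m x _ hx
    exact h.even hi x hx
  · intro (x : N.A)
    show g.f (v * x) = 0
    rw [map_mul, h.gv, zero_mul]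
  · intro n m x hx h0
    exact h.ker n m x hx h0
  · intro n m x hx
    obtain ⟨y, hy, hgy⟩ := h.surj n m x hx
    refine ⟨y, ?_, hgy⟩
    rw [sub_zero, sub_zero]; exact hy

theorem IsStep.ses_odd {M N N' : DGA k} (f : DGA.Hom M N) (g : DGA.Hom N N') {i j : ℤ} {v : N.A}
    (hi : Odd i) (h : DGA.IsStep g i j v) :
    Nonempty (SES (DGMod.ofHom (g.comp f)) (DGMod.ofHom f) (DGMod.ofHom (g.comp f)) i j 0 0) := by
  have hne : ¬ Even i := Int.not_even_iff_odd.mpr hi
  have hεv : N.ε v = - v := by rw [N.ε_gr h.mem, sg_odd hi]; simp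
  let l : N'.A → N.A := Function.surjInv h.surj_tot
  have hl : ∀ x, g.f (l x) = x := Function.surjInv_eq h.surj_tot
  have key : ∀ x y, g.f x = g.f y → v * x = v * y := by
    intro x y hxy
    have : v * (x - y) = 0 := (h.odd hi _).mpr (by rw [map_sub, hxy, sub_self])
    rw [mul_sub] at this
    exact sub_eq_zero.mp this
  let F : N'.A →+ N.A :=
      { toFun := fun x => v * l x
        map_zero' := by
          have := key (l 0) 0 (by rw [hl, map_zero])
          rw [this, mul_zero]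
        map_add' := fun x y => by
          have := key (l (x + y)) (l x + l y) (by rw [hl, map_add, hl, hl])
          show v * l (x + y) = v * l x + v * l y
          rw [this, mul_add] }
  refine ⟨{
    f := F
    g := (g.f : N.A →+* N'.A).toAddMonoidHom
    f_mem := ?_
    g_mem := ?_
    f_d := ?_
    g_d := ?_
    f_smul := ?_
    g_smul := ?_
    inj := ?_
    gf := ?_
    exact := ?_
    surj := ?_ }⟩
  · intro n m (x : N'.A) hx
    obtain ⟨y, hy, hgy⟩ := h.surj n m x hx
    have e : v * l x = v * y := key _ _ (by rw [hl, hgy])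
    show v * l x ∈ N.gr (n + i) (m + j)
    rw [e]
    have := N.mul_mem h.mem hy
    rwa [add_comm i n, add_comm j m] at this
  · intro n m x hx
    rw [add_zero, add_zero]
    exact g.f_mem hx
  · intro (x : N'.A)
    show N.d (v * l x) = sg i • (v * l (N'.d x))
    have e : v * l (N'.d x) = v * N.d (l x) := key _ _ (by rw [hl, g.f_d, hl])
    rw [N.d_mul, h.dv, zero_mul, zero_add, hεv, e, sg_odd hi]
    simp
  · intro (x : N.A)
    show N'.d (g.f x) = sg 0 • g.f (N.d x)
    rw [sg_zero, one_smul, g.f_d]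
  · intro r (x : N'.A)
    show v * l (g.f (f.f r) * x) = f.f (M.εp i r) * (v * l x)
    rw [DGA.εp, if_neg hne, ← mul_assoc, f.f_ε, ← N.comm_odd h.mem hi, mul_assoc]
    exact key _ _ (by rw [hl, map_mul, hl])
  · intro r (x : N.A)
    show g.f (f.f r * x) = g.f (f.f (M.εp 0 r)) * g.f x
    rw [DGA.εp, if_pos Even.zero, map_mul]
  · intro n m (x : N'.A) _ hx
    have := (h.odd hi (l x)).mp hx
    rw [hl] at this
    exact this
  · intro (x : N'.A)
    show g.f (v * l x) = 0
    rw [map_mul, h.gv, zero_mul]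
  · intro n m x hx h0
    obtain ⟨y, hy, hvy⟩ := h.ker n m x hx h0
    refine ⟨g.f y, g.f_mem hy, ?_⟩
    show v * l (g.f y) = x
    rw [← hvy]
    exact key _ _ (hl _)
  · intro n m x hx
    obtain ⟨y, hy, hgy⟩ := h.surj n m x hx
    refine ⟨y, ?_, hgy⟩
    rw [sub_zero, sub_zero]; exact hy

theorem ST_base_gr {n m : ℤ} (h : ¬ (n = 0 ∧ m = 0)) {x : (DGA.base k).A}
    (hx : x ∈ (DGA.base k).gr n m) : x = 0 := by
  have hx' : x ∈ (if n = 0 ∧ m = 0 then (⊤ : Submodule k k) else ⊥) := hx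
  rw [if_neg h] at hx'
  exact (Submodule.mem_bot k).mp hx'

/-- the pieces of an algebra with one variable -/
theorem step_pieces {X : DGA k} {κ : DGA.Hom X (DGA.base k)} {i j : ℤ} {v0 : X.A}
    (_hi : 0 ≤ i) (hj : 1 ≤ j) (h : DGA.IsStep κ i j v0) (n m : ℤ) (x : X.A) (hx : x ∈ X.gr n m)
    (hne : x ≠ 0) : ∃ t : ℕ, n = t * i ∧ m = t * j ∧ (Odd i → t ≤ 1) := by
  have key : ∀ (K : ℕ) (n m : ℤ) (x : X.A), m < K → x ∈ X.gr n m → x ≠ 0 →
      ∃ t : ℕ, n = t * i ∧ m = t * j ∧ (Odd i → t ≤ 1) := by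
    intro K
    induction K with
    | zero =>
      intro n m x hm hx hne
      exact absurd (X.neg_right (by simpa using hm) hx) hne
    | succ K ih =>
      intro n m x hm hx hne
      by_cases h0 : n = 0 ∧ m = 0
      · exact ⟨0, by simp [h0.1], by simp [h0.2], fun _ => by omega⟩
      · have hκ : κ.f x = 0 := ST_base_gr h0 (κ.f_mem hx)
        obtain ⟨y, hy, hvy⟩ := h.ker n m x hx hκ
        have hy0 : y ≠ 0 := by
          rintro rfl
          rw [mul_zero] at hvy
          exact hne hvy.symm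
        push_cast at hm
        obtain ⟨t, ht1, ht2, ht3⟩ := ih (n - i) (m - j) y (by omega) hy hy0
        refine ⟨t + 1, ?_, ?_, ?_⟩
        · push_cast; linarith
        · push_cast; linarith
        · intro hodd
          by_contra hcon
          have ht : t ≠ 0 := by omega
          -- y has nonzero bidegree, so y = v0 * y' and x = v0 * v0 * y' = 0
          have hne0 : ¬ (n - i = 0 ∧ m - j = 0) := by
            rintro ⟨-, h2⟩
            rw [ht2] at h2
            have h3 : 0 < (t : ℤ) * j := by positivity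
            omega
          have hκy : κ.f y = 0 := ST_base_gr hne0 (κ.f_mem hy)
          have := (h.odd hodd y).mpr hκy
          rw [this] at hvy
          exact hne hvy.symm
  obtain ⟨K, hK⟩ : ∃ K : ℕ, m < K := ⟨(m + 1).toNat, by omega⟩
  exact key K n m x hK hx hne

/-- chains are surjective in each bidegree -/
theorem Chain.surj {M N : DGA k} {f : DGA.Hom M N} {L : List (ℤ × ℤ)} (h : DGA.Chain M N f L)
    (n m : ℤ) (y : N.A) (hy : y ∈ N.gr n m) : ∃ x ∈ M.gr n m, f.f x = y := by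
  induction h with
  | nil => exact ⟨y, hy, rfl⟩
  | cons g i j v hc hs ih =>
    obtain ⟨z, hz, rfl⟩ := hs.surj n m y hy
    obtain ⟨x, hx, rfl⟩ := ih z hz
    exact ⟨x, hx, rfl⟩

/-- the cone condition goes up along a step -/
lemma ST_cone_step {N N' : DGA k} {g : DGA.Hom N N'} {i j : ℤ} {v : N.A}
    (hi : 0 ≤ i) (hij : i < j) (h : DGA.IsStep g i j v)
    (hN' : ∀ n m, ∀ x ∈ N'.gr n m, x ≠ 0 → (n = 0 ∧ m = 0) ∨ (0 ≤ n ∧ n < m)) :
    ∀ n m, ∀ x ∈ N.gr n m, x ≠ 0 → (n = 0 ∧ m = 0) ∨ (0 ≤ n ∧ n < m) := by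
  have key : ∀ (K : ℕ) (n m : ℤ) (x : N.A), m < K → x ∈ N.gr n m → x ≠ 0 →
      (n = 0 ∧ m = 0) ∨ (0 ≤ n ∧ n < m) := by
    intro K
    induction K with
    | zero =>
      intro n m x hm hx hne
      exact absurd (N.neg_right (by simpa using hm) hx) hne
    | succ K ih =>
      intro n m x hm hx hne
      by_cases hg : g.f x = 0
      · obtain ⟨y, hy, hvy⟩ := h.ker n m x hx hg
        have hy0 : y ≠ 0 := by
          rintro rfl
          rw [mul_zero] at hvy
          exact hne hvy.symm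
        push_cast at hm
        rcases ih (n - i) (m - j) y (by omega) hy hy0 with h1 | h1
        · right; omega
        · right; omega
      · exact hN' n m _ (g.f_mem hx) hg
  intro n m x hx hne
  obtain ⟨K, hK⟩ : ∃ K : ℕ, m < K := ⟨(m + 1).toNat, by omega⟩
  exact key K n m x hK hx hne

lemma ST_cone {M N : DGA k} {g : DGA.Hom M N} {L : List (ℤ × ℤ)}
    (h : DGA.Chain M N g L) (hL : ∀ v ∈ L, 0 ≤ v.1 ∧ v.1 < v.2)
    (hN : ∀ n m, ∀ x ∈ N.gr n m, x ≠ 0 → (n = 0 ∧ m = 0) ∨ (0 ≤ n ∧ n < m)) :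
    ∀ n m, ∀ x ∈ M.gr n m, x ≠ 0 → (n = 0 ∧ m = 0) ∨ (0 ≤ n ∧ n < m) := by
  induction h with
  | nil => exact hN
  | cons g i j v hc hs ih =>
    have hij := hL (i, j) (List.mem_cons_self ..)
    exact ih (fun v hv => hL v (List.mem_cons_of_mem _ hv))
      (ST_cone_step hij.1 hij.2 hs hN)

/-- cone of bidegrees of an algebra which is a chain over `k` -/
theorem Chain.cone {N : DGA k} {g : DGA.Hom N (DGA.base k)} {L : List (ℤ × ℤ)}
    (h : DGA.Chain N (DGA.base k) g L) (hL : ∀ v ∈ L, 0 ≤ v.1 ∧ v.1 < v.2)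
    (n m : ℤ) (x : N.A) (hx : x ∈ N.gr n m) (hne : x ≠ 0) :
    (n = 0 ∧ m = 0) ∨ (0 ≤ n ∧ n < m) := by
  refine ST_cone h hL ?_ n m x hx hne
  intro n m x hx hne
  by_contra hcon
  push Not at hcon
  apply hne
  apply ST_base_gr _ hx
  rintro ⟨h1, h2⟩
  exact hcon.1 h1 h2

/-- an algebra which is a chain over `k`, with variables of internal degree `< J`, vanishes in
bidegree `(J - 1, J)` -/
theorem Chain.nolin {N : DGA k} {g : DGA.Hom N (DGA.base k)} {L : List (ℤ × ℤ)}
    (h : DGA.Chain N (DGA.base k) g L) (J : ℤ) (hJ : 2 ≤ J)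
    (hL : ∀ v ∈ L, 0 ≤ v.1 ∧ v.1 < v.2 ∧ v.2 < J)
    (x : N.A) (hx : x ∈ N.gr (J - 1) J) : x = 0 := by
  have key : ∀ {M N : DGA k} {g : DGA.Hom M N} {L : List (ℤ × ℤ)}
      (_ : DGA.Chain M N g L) (_ : ∀ v ∈ L, 0 ≤ v.1 ∧ v.1 < v.2 ∧ v.2 < J)
      (_ : ∀ n m, ∀ x ∈ N.gr n m, x ≠ 0 → (n = 0 ∧ m = 0) ∨ (0 ≤ n ∧ n < m))
      (_ : ∀ x ∈ N.gr (J - 1) J, x = 0), ∀ x ∈ M.gr (J - 1) J, x = 0 := by
    intro M N g L h
    induction h with
    | nil => intro _ _ h3; exact h3
    | cons g i j v hc hs ih =>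
      intro hL hcone hz
      have hij := hL (i, j) (List.mem_cons_self ..)
      have hcone' := ST_cone_step hij.1 hij.2.1 hs hcone
      refine ih (fun v hv => hL v (List.mem_cons_of_mem _ hv)) hcone' ?_
      intro x hx
      by_contra hne
      have hg := hz _ (g.f_mem hx)
      obtain ⟨y, hy, hvy⟩ := hs.ker _ _ x hx hg
      have hy0 : y ≠ 0 := by
        rintro rfl
        rw [mul_zero] at hvy
        exact hne hvy.symm
      have := hcone' _ _ y hy hy0
      simp only at hij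
      omega
  refine key h hL ?_ ?_ x hx
  · intro n m x hx hne
    by_contra hcon
    push Not at hcon
    apply hne
    apply ST_base_gr _ hx
    rintro ⟨h1, h2⟩
    exact hcon.1 h1 h2
  · intro x hx
    exact ST_base_gr (by omega) hx

end FV
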