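import Pool.Agent.helper54.FV.AE
import Pool.Agent.helper54.FV.AO
import Pool.Agent.helper92.FV.ST
import Pool.Agent.helper19.FV.CH

/-! # MP_51fbee_al, module PM2 : adjoining one variable to a model -/

namespace FV

universe u

variable {k : Type u} [Field k]

theorem PM2_adj (i j : ℤ) (h0 : 0 ≤ i) (hj : 1 ≤ j) : Nonempty (DGA.AdjFunctor k i j) := by
  rcases Int.even_or_odd i with h | h
  · exact exists_adj_even i j h h0 hj
  · exact exists_adj_odd i j h h0 hj

theorem PM2_data {M N : DGA k} (f : DGA.Hom M N) {i j : ℤ} {z : M.A} (h : DGA.AdjData M i j z) :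
    DGA.AdjData N i j (f.f z) where
  i_nonneg := h.i_nonneg
  j_pos := h.j_pos
  z_mem := f.f_mem h.z_mem
  dz := by rw [← f.f_d, h.dz, map_zero]

theorem PM2_base_gr {n m : ℤ} (h : ¬ (n = 0 ∧ m = 0)) {x : (DGA.base k).A}
    (hx : x ∈ (DGA.base k).gr n m) : x = 0 := by
  have hx' : x ∈ (if n = 0 ∧ m = 0 then (⊤ : Submodule k k) else ⊥) := hx
  rw [if_neg h] at hx'
  exact (Submodule.mem_bot k).mp hx'

variable {R : Type u} [CommRing R] [Algebra k R] {𝒜 : ℕ → Submodule k R} [GradedAlgebra 𝒜]

/-- adjoining one variable `w` with `d w = z` -/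
theorem model_step (xs : List R) (J : ℤ) (hJ : 2 ≤ J) (P : PreModel 𝒜 xs J)
    (hNL : ∀ z, RC P.π (J - 1) J z → z = 0)
    (n : ℤ) (z : P.M.A) (hz : RC P.π n J z) (hnb : ¬ ∃ y ∈ P.M.gr (n + 1) J, P.M.d y = z) :
    ∃ (P' : PreModel 𝒜 xs J) (ι : DGA.Hom P.M P'.M),
      Function.Injective ι.f ∧ (∀ a, P'.π.f (ι.f a) = P.π.f a) ∧
      (∀ v ∈ P'.vars, v ∈ P.vars ∨ v.2 = J) ∧
      (∀ n' m a, ι.f a ∈ P'.M.gr n' m → a ∈ P.M.gr n' m) ∧
      (∀ n' m, m < J → ∀ x ∈ P'.M.gr n' m, ∃ a ∈ P.M.gr n' m, ι.f a = x) ∧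
      ∃ w ∈ P'.M.gr (n + 1) J, P'.M.d w = ι.f z ∧
        ∀ n', ∀ x ∈ P'.M.gr n' J, ∃ a ∈ P.M.gr n' J, ∃ c : k,
          (c ≠ 0 → n' = n + 1) ∧ x = ι.f a + c • w := by
  have hne : z ≠ 0 := by
    rintro rfl
    exact hnb ⟨0, Submodule.zero_mem _, map_zero _⟩
  have hcone := P.conn.cone n J z hz.1 hne
  have hn0 : 0 ≤ n ∧ n < J := by
    rcases hcone with h | h
    · omega
    · exact h
  have hn1 : n ≠ J - 1 := by
    intro h
    apply hne
    apply hNL
    rw [← h]; exact hz
  have hnJ : n + 1 < J := by omega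
  obtain ⟨F⟩ := PM2_adj (k := k) (n + 1) J (by omega) (by omega)
  have hd : DGA.AdjData P.M (n + 1) J z :=
    { i_nonneg := by omega
      j_pos := by omega
      z_mem := by
        have := hz.1
        rwa [show n + 1 - 1 = n by ring]
      dz := hz.2.1 }
  obtain ⟨π', hπ1, hπ2⟩ := F.lift P.M z hd (ofRing 𝒜) P.π 0 (Submodule.zero_mem _)
    (by rw [map_zero]; exact hz.2.2.symm) (fun _ => mul_zero _)
  have hinj := F.inc_inj P.M z hd
  -- relative cycles of the new algebra in internal degrees ≤ J
  have hRC : ∀ n' m z', m ≤ J → RC π' n' m z' →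
      ∃ a, z' = (F.inc P.M z hd).f a ∧ RC P.π n' m a := by
    intro n' m z' hm hz'
    rcases hm.lt_or_eq with hlt | rfl
    · obtain ⟨a, ha, rfl⟩ := F.piece_lt P.M z hd n' m hlt z' hz'.1
      refine ⟨a, rfl, ha, ?_, ?_⟩
      · apply hinj
        rw [(F.inc P.M z hd).f_d, hz'.2.1, map_zero]
      · rw [← hπ1]; exact hz'.2.2
    · obtain ⟨a, ha, c, hc, hx⟩ := F.piece_eq P.M z hd n' P.conn z' hz'.1
      have hc0 : c = 0 := by
        by_contra hc0
        have h1 := hz'.2.1
        rw [hx, map_add, map_smul, F.d_var, ← (F.inc P.M z hd).f_d, ← map_smul, ← map_add] at h1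
        have h2 : P.M.d a + c • z = 0 := by
          apply hinj; rw [h1, map_zero]
        apply hnb
        refine ⟨(-c⁻¹) • a, ?_, ?_⟩
        · rw [← hc hc0]
          exact Submodule.smul_mem _ _ ha
        · rw [map_smul]
          have h3 : P.M.d a = - (c • z) := eq_neg_of_add_eq_zero_left h2
          rw [h3, smul_neg, neg_smul, neg_neg, smul_smul, inv_mul_cancel₀ hc0, one_smul]
      subst hc0
      rw [zero_smul, add_zero] at hx
      subst hx
      refine ⟨a, rfl, ha, ?_, ?_⟩
      · apply hinj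
        rw [(F.inc P.M z hd).f_d, hz'.2.1, map_zero]
      · rw [← hπ1]; exact hz'.2.2
  obtain ⟨Mb, f, g, hX, hC⟩ := P.chain
  have hvars : ∀ v ∈ P.vars, 0 ≤ v.1 ∧ 1 ≤ v.2 := by
    intro v hv
    have := P.vars_le v hv
    omega
  -- the kill of the variable over the base
  have hd1 := PM2_data f hd
  have hd2 := PM2_data g hd1
  have hgfz : g.f (f.f z) = 0 := by
    apply PM2_base_gr (n := n) (m := J) (by omega)
    exact g.f_mem (f.f_mem hz.1)
  obtain ⟨κ0, hκ0, hκ0s⟩ := F.kill (DGA.base k) (g.f (f.f z)) hd2 hgfz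
  have hX' := XChain.adj F hX z hd hd1
  have hC' := Chain.adj F hvars hC (f.f z) hd1 hd2
  have hC'' := DGA.Chain.cons κ0 (n + 1) J _ hC' hκ0s
  -- full chain to the base
  have hXc := XChain.chain hX
  have hfull := Chain.trans hXc hC
  have hfull' := Chain.adj F (L := P.vars ++ List.replicate P.ys.length ((0 : ℤ), (1 : ℤ)))
    (by
      intro v hv
      rcases List.mem_append.mp hv with h | h
      · exact hvars v h
      · rw [List.eq_of_mem_replicate h]; norm_num) hfull z hd hd2
  refine ⟨{
    M := F.obj P.M z hd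
    π := π'
    conn := F.conn P.M z hd hnJ P.conn
    vars := (n + 1, J) :: P.vars
    vars_le := ?_
    ys := P.ys.map (fun y => (F.inc P.M z hd).f y)
    ys_mem := ?_
    ys_map := ?_
    chain := ⟨_, _, _, hX', hC''⟩
    marks := ?_ }, F.inc P.M z hd, hinj, hπ1, ?_, F.inc_mem P.M z hd,
      F.piece_lt P.M z hd, F.var P.M z hd, F.var_mem P.M z hd, F.d_var P.M z hd, ?_⟩
  · -- vars_le
    intro v hv
    rcases List.mem_cons.mp hv with rfl | h
    · simp only; omega
    · exact P.vars_le v h
  · -- ys_mem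
    intro y hy
    obtain ⟨y0, hy0, rfl⟩ := List.mem_map.mp hy
    exact (F.inc P.M z hd).f_mem (P.ys_mem y0 hy0)
  · -- ys_map
    rw [List.map_map]
    conv_rhs => rw [← P.ys_map]
    apply List.map_congr_left
    intro y _
    exact hπ1 y
  · -- marks
    intro v hv
    rcases List.mem_cons.mp hv with rfl | hv
    · -- the new variable
      left
      refine ⟨_, _, _, κ0, _, ?_, hfull', hκ0s, ?_⟩
      · intro w hw
        rcases List.mem_append.mp hw with h | h
        · exact Or.inr (List.mem_cons_of_mem _ h)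
        · exact Or.inl (List.eq_of_mem_replicate h)
      · intro z' hz'
        obtain ⟨a, rfl, ha⟩ := hRC _ _ z' le_rfl hz'
        refine (F.map_inc (g.comp f) z hd hd2 a).trans ?_
        have : (g.comp f).f a = 0 := by
          apply PM2_base_gr (n := n + 1) (m := J) (by omega)
          exact (g.comp f).f_mem ha.1
        rw [this]
        exact map_zero _
    · have hv1 := P.vars_le v hv
      rcases P.marks v hv with ⟨L, X, fX, κ, v0, hL, hch, hstep, hRCX⟩ | ⟨hev, m, hm, hmem⟩
      · by_cases hfz : fX.f z = 0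
        · left
          have hdX := PM2_data fX hd
          obtain ⟨κ1, hκ1, hκ1s⟩ := F.kill X (fX.f z) hdX hfz
          have hL0 : ∀ v ∈ L, 0 ≤ v.1 ∧ 1 ≤ v.2 := by
            intro w hw
            rcases hL w hw with rfl | h
            · norm_num
            · exact hvars w h
          have hch' := Chain.adj F hL0 hch z hd hdX
          refine ⟨(n + 1, J) :: L, X, κ1.comp (F.map fX z hd hdX), κ, v0, ?_,
            DGA.Chain.cons κ1 (n + 1) J _ hch' hκ1s, hstep, ?_⟩
          · intro w hw
            rcases List.mem_cons.mp hw with rfl | h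
            · exact Or.inr (List.mem_cons_self ..)
            · rcases hL w h with h | h
              · exact Or.inl h
              · exact Or.inr (List.mem_cons_of_mem _ h)
          · intro z' hz'
            obtain ⟨a, rfl, ha⟩ := hRC _ _ z' hv1.2.2 hz'
            rw [DGA.Hom.comp_apply, F.map_inc, hκ1, hRCX a ha]
        · right
          obtain ⟨t, ht1, ht2, ht3⟩ := step_pieces (by omega) (by omega) hstep n J (fX.f z)
            (fX.f_mem hz.1) hfz
          have ht0 : t ≠ 0 := by
            rintro rfl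
            simp at ht2; omega
          have ht1' : t ≠ 1 := by
            rintro rfl
            apply hfz
            apply hRCX
            have e1 : v.1 = n := by simpa using ht1.symm
            have e2 : v.2 = J := by simpa using ht2.symm
            rw [e1, e2]; exact hz
          have hev : Even v.1 := by
            rcases Int.even_or_odd v.1 with h | h
            · exact h
            · have := ht3 h; omega
          refine ⟨hev, t, by omega, ?_⟩
          rw [← ht1, ← ht2]
          exact List.mem_cons_self ..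
      · right
        exact ⟨hev, m, hm, List.mem_cons_of_mem _ hmem⟩
  · intro v hv
    rcases List.mem_cons.mp hv with rfl | h
    · right; rfl
    · left; exact h
  · intro n' x hx
    exact F.piece_eq P.M z hd n' P.conn x hx

end FV
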