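import Pool.Agent.helper92.FV.CV
import Pool.Agent.helper92.FV.PM2
import Pool.Agent.helper37.FV.RG

/-! # MP_51fbee_al, module PM3 : one stage of the construction of models -/

namespace FV

universe u

variable {k : Type u} [Field k]

variable {R : Type u} [CommRing R] [Algebra k R] {𝒜 : ℕ → Submodule k R} [GradedAlgebra 𝒜]

/-- relative cycles as a subspace -/
def PM3_Z {M : DGA k} (π : DGA.Hom M (ofRing 𝒜)) (n m : ℤ) : Submodule k M.A :=
  M.gr n m ⊓ LinearMap.ker M.d ⊓ LinearMap.ker π.f.toLinearMap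

lemma PM3_mem_Z {M : DGA k} (π : DGA.Hom M (ofRing 𝒜)) (n m : ℤ) (z : M.A) :
    z ∈ PM3_Z π n m ↔ RC π n m z := by
  constructor
  · rintro ⟨⟨h1, h2⟩, h3⟩
    exact ⟨h1, h2, h3⟩
  · rintro ⟨h1, h2, h3⟩
    exact ⟨⟨h1, h2⟩, h3⟩

/-- boundaries as a subspace -/
def PM3_B (M : DGA k) (n m : ℤ) : Submodule k M.A := (M.gr (n + 1) m).map M.d

lemma PM3_B_le {M : DGA k} (π : DGA.Hom M (ofRing 𝒜)) {n m : ℤ} (hn : 0 ≤ n) :
    PM3_B M n m ≤ PM3_Z π n m := by
  rintro _ ⟨y, hy, rfl⟩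
  rw [PM3_mem_Z]
  refine ⟨?_, M.d_d y, ?_⟩
  · have := M.d_mem hy
    rwa [add_sub_cancel_right] at this
  · rw [π.f_d]; rfl

/-- the state during the stage -/
structure PM3_St {xs : List R} {J : ℤ} (V : List (ℤ × ℤ)) (P : PreModel 𝒜 xs J) : Prop where
  quasi : ∀ m, m < J → QuasiAt P.π m
  nolin : ∀ z, RC P.π (J - 1) J z → z = 0
  vars : ∀ v ∈ P.vars, v ∈ V ∨ v.2 = J

/-- the defect -/
noncomputable def PM3_defect {xs : List R} {J : ℤ} (P : PreModel 𝒜 xs J) : ℕ :=
  (∑ n ∈ Finset.range J.toNat, Module.finrank k (PM3_Z P.π n J))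
    - ∑ n ∈ Finset.range J.toNat, Module.finrank k (PM3_B P.M n J)

theorem PM3_step {xs : List R} {J : ℤ} (hJ : 2 ≤ J) (V : List (ℤ × ℤ)) (P : PreModel 𝒜 xs J)
    (hP : PM3_St V P) (n : ℤ) (z : P.M.A) (hz : RC P.π n J z)
    (hnb : ¬ ∃ y ∈ P.M.gr (n + 1) J, P.M.d y = z) :
    ∃ P' : PreModel 𝒜 xs J, PM3_St V P' ∧ PM3_defect P' < PM3_defect P := by
  obtain ⟨P', ι, hinj, hπ, hvars, hmem, hlt, w, hw, hdw, hJpiece⟩ :=
    model_step xs J hJ P hP.nolin n z hz hnb
  have hne : z ≠ 0 := by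
    rintro rfl
    exact hnb ⟨0, Submodule.zero_mem _, map_zero _⟩
  have hn0 : 0 ≤ n ∧ n < J := by
    rcases P.conn.cone n J z hz.1 hne with h | h
    · omega
    · exact h
  -- relative cycles in internal degree J
  have hRC : ∀ n' x, RC P'.π n' J x → ∃ a, x = ι.f a ∧ RC P.π n' J a := by
    intro n' x hx
    obtain ⟨a, ha, c, hc, hxa⟩ := hJpiece n' x hx.1
    have hc0 : c = 0 := by
      by_contra hc0
      have h1 := hx.2.1
      rw [hxa, map_add, map_smul, hdw, ← ι.f_d, ← map_smul, ← map_add] at h1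
      have h2 : P.M.d a + c • z = 0 := by
        apply hinj; rw [h1, map_zero]
      apply hnb
      refine ⟨(-c⁻¹) • a, ?_, ?_⟩
      · rw [← hc hc0]
        exact Submodule.smul_mem _ _ ha
      · rw [map_smul]
        have h3 : P.M.d a = - (c • z) := eq_neg_of_add_eq_zero_left h2
        rw [h3, smul_neg, neg_smul, neg_neg, smul_smul, inv_mul_cancel₀ hc0, one_smul]
    subst hc0
    rw [zero_smul, add_zero] at hxa
    subst hxa
    refine ⟨a, rfl, ha, ?_, ?_⟩
    · apply hinj; rw [ι.f_d, hx.2.1, map_zero]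
    · rw [← hπ]; exact hx.2.2
  have hRC' : ∀ n' m a, RC P.π n' m a → RC P'.π n' m (ι.f a) := by
    intro n' m a ha
    refine ⟨ι.f_mem ha.1, ?_, ?_⟩
    · rw [← ι.f_d, ha.2.1, map_zero]
    · rw [hπ]; exact ha.2.2
  refine ⟨P', ⟨?_, ?_, ?_⟩, ?_⟩
  · -- quasi
    intro m hm
    have hQ := hP.quasi m hm
    refine ⟨?_, ?_⟩
    · intro r hr
      obtain ⟨a, ha, haa⟩ := hQ.surj r hr
      exact ⟨ι.f a, ι.f_mem ha, by rw [hπ]; exact haa⟩
    · intro n' x hx
      obtain ⟨a, ha, rfl⟩ := hlt n' m hm x hx.1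
      obtain ⟨y, hy, hDy⟩ := hQ.exact n' a ⟨ha, by
        apply hinj; rw [ι.f_d, hx.2.1, map_zero], by rw [← hπ]; exact hx.2.2⟩
      exact ⟨ι.f y, ι.f_mem hy, by rw [← ι.f_d, hDy]⟩
  · intro x hx
    obtain ⟨a, rfl, ha⟩ := hRC _ x hx
    rw [hP.nolin a ha, map_zero]
  · intro v hv
    rcases hvars v hv with h | h
    · exact hP.vars v h
    · exact Or.inr h
  · -- the defect decreases
    let L : P.M.A →ₗ[k] P'.M.A := ι.f.toLinearMap
    have hL : Function.Injective L := hinj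
    have hZ : ∀ n' : ℤ, PM3_Z P'.π n' J = (PM3_Z P.π n' J).map L := by
      intro n'
      ext x
      rw [PM3_mem_Z]
      constructor
      · intro hx
        obtain ⟨a, rfl, ha⟩ := hRC n' x hx
        exact ⟨a, (PM3_mem_Z _ _ _ _).mpr ha, rfl⟩
      · rintro ⟨a, ha, rfl⟩
        exact hRC' _ _ a ((PM3_mem_Z _ _ _ _).mp ha)
    have hZf : ∀ n' : ℤ, Module.finrank k (PM3_Z P'.π n' J) = Module.finrank k (PM3_Z P.π n' J) := by
      intro n'
      rw [hZ]
      exact (Submodule.equivMapOfInjective L hL _).finrank_eq.symm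
    have hfinB : ∀ n' : ℤ, Module.Finite k (PM3_B P'.M n' J) := by
      intro n'
      haveI := P'.conn.fin (n' + 1) J
      exact Module.Finite.map _ _
    have hfinZ : ∀ n' : ℤ, Module.Finite k (PM3_Z P'.π n' J) := by
      intro n'
      have : FiniteDimensional k (P'.M.gr n' J) := P'.conn.fin n' J
      exact Submodule.finiteDimensional_of_le (fun x hx => hx.1.1 : PM3_Z P'.π n' J ≤ P'.M.gr n' J)
    have hBle : ∀ n' : ℤ, (PM3_B P.M n' J).map L ≤ PM3_B P'.M n' J := by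
      rintro n' _ ⟨_, ⟨y, hy, rfl⟩, rfl⟩
      exact ⟨ι.f y, ι.f_mem hy, (ι.f_d y).symm⟩
    have hBf : ∀ n' : ℤ, Module.finrank k ((PM3_B P.M n' J).map L)
        = Module.finrank k (PM3_B P.M n' J) := by
      intro n'
      exact (Submodule.equivMapOfInjective L hL _).finrank_eq.symm
    have hB1 : ∀ n' : ℤ, Module.finrank k (PM3_B P.M n' J) ≤ Module.finrank k (PM3_B P'.M n' J) := by
      intro n'
      rw [← hBf]
      haveI := hfinB n'
      exact Submodule.finrank_mono (hBle n')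
    have hB2 : Module.finrank k (PM3_B P.M n J) < Module.finrank k (PM3_B P'.M n J) := by
      rw [← hBf]
      haveI := hfinB n
      apply Submodule.finrank_lt_finrank_of_lt
      refine lt_of_le_of_ne (hBle n) ?_
      intro heq
      have h1 : ι.f z ∈ PM3_B P'.M n J := ⟨w, hw, hdw⟩
      rw [← heq] at h1
      obtain ⟨y, ⟨t, ht, rfl⟩, hy2⟩ := h1
      exact hnb ⟨t, ht, hinj hy2⟩
    have hB3 : ∀ n' : ℕ, Module.finrank k (PM3_B P'.M n' J)
        ≤ Module.finrank k (PM3_Z P'.π n' J) := by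
      intro n'
      haveI := hfinZ n'
      exact Submodule.finrank_mono (PM3_B_le P'.π (by positivity))
    have hnmem : n.toNat ∈ Finset.range J.toNat := by
      rw [Finset.mem_range]; omega
    have hsum1 : (∑ n' ∈ Finset.range J.toNat, Module.finrank k (PM3_B P.M n' J))
        < ∑ n' ∈ Finset.range J.toNat, Module.finrank k (PM3_B P'.M n' J) := by
      apply Finset.sum_lt_sum
      · intro n' _; exact hB1 n'
      · refine ⟨n.toNat, hnmem, ?_⟩
        rw [Int.toNat_of_nonneg hn0.1]; exact hB2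
    have hsum2 : (∑ n' ∈ Finset.range J.toNat, Module.finrank k (PM3_B P'.M n' J))
        ≤ ∑ n' ∈ Finset.range J.toNat, Module.finrank k (PM3_Z P'.π n' J) :=
      Finset.sum_le_sum fun n' _ => hB3 n'
    have hsum3 : (∑ n' ∈ Finset.range J.toNat, Module.finrank k (PM3_Z P'.π n' J))
        = ∑ n' ∈ Finset.range J.toNat, Module.finrank k (PM3_Z P.π n' J) :=
      Finset.sum_congr rfl fun n' _ => hZf n'
    unfold PM3_defect
    omega

/-- iterate -/
theorem PM3_iter {xs : List R} {J : ℤ} (hJ : 2 ≤ J) (V : List (ℤ × ℤ)) :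
    ∀ (K : ℕ) (P : PreModel 𝒜 xs J), PM3_St V P → PM3_defect P ≤ K →
      ∃ P' : PreModel 𝒜 xs J, PM3_St V P' ∧
        ∀ n z, RC P'.π n J z → ∃ y ∈ P'.M.gr (n + 1) J, P'.M.d y = z := by
  intro K
  induction K with
  | zero =>
    intro P hP hd
    refine ⟨P, hP, ?_⟩
    intro n z hz
    by_contra hnb
    obtain ⟨P', _, hlt⟩ := PM3_step hJ V P hP n z hz hnb
    omega
  | succ K ih =>
    intro P hP hd
    by_cases h : ∀ n z, RC P.π n J z → ∃ y ∈ P.M.gr (n + 1) J, P.M.d y = z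
    · exact ⟨P, hP, h⟩
    · push Not at h
      obtain ⟨n, z, hz, hnb⟩ := h
      obtain ⟨P', hP', hlt⟩ := PM3_step hJ V P hP n z hz (by push Not; exact hnb)
      exact ih P' hP' (by omega)

theorem model_stage (h : StdGraded 𝒜) (xs : List R) (J : ℤ) (hJ : 2 ≤ J)
    (P : PreModel 𝒜 xs (J - 1)) (hQ : ∀ m, m ≤ J - 1 → QuasiAt P.π m) :
    ∃ P' : PreModel 𝒜 xs J, (∀ m, m ≤ J → QuasiAt P'.π m) ∧
      ∀ v ∈ P'.vars, v ∈ P.vars ∨ v.2 = J := by
  let P0 : PreModel 𝒜 xs J :=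
    { M := P.M
      π := P.π
      conn := P.conn
      vars := P.vars
      vars_le := fun v hv => by have := P.vars_le v hv; omega
      ys := P.ys
      ys_mem := P.ys_mem
      ys_map := P.ys_map
      chain := P.chain
      marks := P.marks }
  have hP0 : PM3_St P.vars P0 := by
    refine ⟨fun m hm => hQ m (by omega), ?_, fun v hv => Or.inl hv⟩
    intro z hz
    obtain ⟨Mb, f, g, hX, hC⟩ := P.chain
    have hfull := Chain.trans (XChain.chain hX) hC
    refine Chain.nolin hfull J hJ ?_ z hz.1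
    intro v hv
    rcases List.mem_append.mp hv with h1 | h1
    · have := P.vars_le v h1; omega
    · rw [List.eq_of_mem_replicate h1]; simp only; omega
  obtain ⟨P', hP', hex⟩ := PM3_iter hJ P.vars _ P0 hP0 le_rfl
  refine ⟨P', ?_, hP'.vars⟩
  intro m hm
  rcases hm.lt_or_eq with hlt | rfl
  · exact hP'.quasi m hlt
  · refine ⟨?_, hex⟩
    intro r hr
    have hr' : (r : R) ∈ 𝒜 m.toNat := by
      have h1 : (r : R) ∈ (if (0 : ℤ) = 0 ∧ 0 ≤ m then 𝒜 m.toNat else ⊥ : Submodule k R) := hr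
      rwa [if_pos ⟨rfl, by omega⟩] at h1
    obtain ⟨s, hs⟩ : ∃ s : ℕ, m.toNat = s + 1 := ⟨m.toNat - 1, by omega⟩
    rw [hs] at hr'
    have hspan := mem_mul_one h s r hr'
    have hms : m = s + 1 := by omega
    have key : ∀ x ∈ Submodule.span k {x : R | ∃ a ∈ 𝒜 s, ∃ b ∈ 𝒜 1, x = a * b},
        ∃ a ∈ P'.M.gr 0 m, P'.π.toR a = x := by
      intro x hx
      induction hx using Submodule.span_induction with
      | mem x hx =>
        obtain ⟨a, ha, b, hb, rfl⟩ := hx
        have ha' := mem_ofRing ha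
        have hb' := mem_ofRing_one hb
        obtain ⟨a', ha1, ha2⟩ := (hP'.quasi s (by omega)).surj _ ha'
        obtain ⟨b', hb1, hb2⟩ := (hP'.quasi 1 (by omega)).surj _ hb'
        refine ⟨a' * b', ?_, ?_⟩
        · have := P'.M.mul_mem ha1 hb1
          rwa [add_zero, ← hms] at this
        · rw [map_mul]
          have e1 : P'.π.toR a' = a := ha2
          have e2 : P'.π.toR b' = b := hb2
          rw [e1, e2]
      | zero => exact ⟨0, Submodule.zero_mem _, map_zero _⟩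
      | add x y _ _ ihx ihy =>
        obtain ⟨a, ha, rfl⟩ := ihx
        obtain ⟨b, hb, rfl⟩ := ihy
        exact ⟨a + b, Submodule.add_mem _ ha hb, map_add _ _ _⟩
      | smul c x _ ih =>
        obtain ⟨a, ha, rfl⟩ := ih
        refine ⟨c • a, Submodule.smul_mem _ _ ha, ?_⟩
        exact map_smul P'.π.f c a
    exact key r hspan

end FV
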