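import Pool.Agent.helper92.FV.SQ2
import Pool.Agent.helper92.FV.PM3
import Pool.Agent.helper37.FV.F1
import Pool.Agent.helper37.FV.TW
import Pool.Agent.helper37.FV.RG
import Pool.Agent.helper63.FV.KZ
import Pool.Agent.helper96.FV.EX
import Pool.Agent.helper96.FV.S1f
import Pool.Agent.helper59.FV.PM1b
import Pool.Agent.helper19.FV.SL1
import Pool.Agent.helper19.FV.SL2
import Pool.Agent.helper19.FV.SL3
import Pool.Agent.helper85.FV.LK1
import Pool.Agent.helper85.FV.LK1b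
import Pool.Agent.helper85.FV.LK2
import Pool.Agent.helper85.FV.LK3

/-! # MP_51fbee_al : final assembly -/

namespace FV

universe u

variable {k : Type u} [Field k] {R : Type u} [CommRing R] [Algebra k R]
  {𝒜 : ℕ → Submodule k R} [GradedAlgebra 𝒜]

/-- Models with slopes bounded by `σ`, given a bound for `Tor`. -/
theorem exists_model (h : StdGraded 𝒜) (xs : List R) (hxs : ∀ x ∈ xs, x ∈ 𝒜 1)
    (hspan : Submodule.span k {x | x ∈ xs} = 𝒜 1) (hnd : xs.Nodup)
    (hli : LinearIndependent k (fun x : {x // x ∈ xs} => (x : R)))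
    (TR : ℤ → ℤ → Prop)
    (hTR : ∀ (J : ℤ) (P : PreModel 𝒜 xs J) (_ : ∀ m, m ≤ J → QuasiAt P.π m) (G : Twist P.M)
      (_ : G.IsRes J) (n b : ℤ), b ≤ J → (G.Has n b ↔ TR n b))
    (σ : ℝ) (hσ : 1 ≤ σ) (hb : ∀ n b, TR n b → (b : ℝ) ≤ σ * n) (J : ℤ) (hJ : 1 ≤ J) :
    ∃ P : PreModel 𝒜 xs J, (∀ m, m ≤ J → QuasiAt P.π m) ∧
      ∀ v ∈ P.vars, (v.2 : ℝ) ≤ σ * (v.1 + 1) := by
  induction J, hJ using Int.leInduction with
  | base =>
    obtain ⟨P, hP, hQ⟩ := model_init h xs hxs hspan hnd hli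
    exact ⟨P, hQ, by simp [hP]⟩
  | succ J hJ ih =>
    obtain ⟨P0, hQ0, hs0⟩ := ih
    have key : ∀ J' : ℤ, J' = J → ∃ P : PreModel 𝒜 xs J', (∀ m, m ≤ J' → QuasiAt P.π m) ∧
        ∀ v ∈ P.vars, (v.2 : ℝ) ≤ σ * (v.1 + 1) := by
      rintro J' rfl; exact ⟨P0, hQ0, hs0⟩
    obtain ⟨P, hQ, hs⟩ := key (J + 1 - 1) (by ring)
    obtain ⟨P', hQ', hv⟩ := model_stage h xs (J + 1) (by omega) P hQ
    refine ⟨P', hQ', ?_⟩
    obtain ⟨G, hG⟩ := exists_twist P'.M P'.conn (J + 1) (by omega)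
    refine slope_new P' G hG σ hσ ?_ ?_
    · intro v hv'
      rcases hv v hv' with h1 | h1
      · exact Or.inr (hs v h1)
      · exact Or.inl h1
    · intro n b hbJ hH
      exact hb n b ((hTR _ P' hQ' G hG n b hbJ).mp hH)

/-- The main argument, for an abstract `Tor` predicate. -/
theorem main_abs (p : ℕ) [hp : Fact p.Prime] [CharP k p] [CharP R p] (h : StdGraded 𝒜)
    (xs : List R) (hxs : ∀ x ∈ xs, x ∈ 𝒜 1)
    (hspan : Submodule.span k {x | x ∈ xs} = 𝒜 1) (hnd : xs.Nodup)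
    (hli : LinearIndependent k (fun x : {x // x ∈ xs} => (x : R)))
    (TR : ℤ → ℤ → Prop)
    (hTR : ∀ (J : ℤ) (P : PreModel 𝒜 xs J) (_ : ∀ m, m ≤ J → QuasiAt P.π m) (G : Twist P.M)
      (_ : G.IsRes J) (n b : ℤ), b ≤ J → (G.Has n b ↔ TR n b))
    (e : ℕ) (he : 1 ≤ e) (r : ℝ) (hr : 0 ≤ r)
    (hS : ∀ (J : ℤ) (P : PreModel 𝒜 xs J) (_ : ∀ m, m ≤ J → QuasiAt P.π m) (G : Twist P.M)
      (_ : G.IsRes J) (n m : ℤ), m ≤ J → (n : ℝ) + r < m →
        (G.tens (DGMod.ver P.π p e 0 (DGMod.self (ofRing 𝒜)))).Van n m)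
    (hS0 : ∀ (J : ℤ) (P : PreModel 𝒜 xs J) (_ : ∀ m, m ≤ J → QuasiAt P.π m) (G : Twist P.M)
      (_ : G.IsRes J) (n m : ℤ), m ≤ J → (n, m) ≠ ((0 : ℤ), (0 : ℤ)) →
        (G.tens (DGMod.ver P.π p 0 0 (DGMod.self (ofRing 𝒜)))).Van n m)
    (n b : ℤ) (hnb : TR n b) : b ≤ n := by
  -- existence of models without slope bounds
  have hmod : ∀ J : ℤ, 1 ≤ J → ∃ P : PreModel 𝒜 xs J, (∀ m, m ≤ J → QuasiAt P.π m) := by
    intro J hJ
    induction J, hJ using Int.leInduction with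
    | base =>
      obtain ⟨P, hP, hQ⟩ := model_init h xs hxs hspan hnd hli
      exact ⟨P, hQ⟩
    | succ J hJ ih =>
      obtain ⟨P0, hQ0⟩ := ih
      have key : ∀ J' : ℤ, J' = J → ∃ P : PreModel 𝒜 xs J', (∀ m, m ≤ J' → QuasiAt P.π m) := by
        rintro J' rfl; exact ⟨P0, hQ0⟩
      obtain ⟨P, hQ⟩ := key (J + 1 - 1) (by ring)
      obtain ⟨P', hQ', hv⟩ := model_stage h xs (J + 1) (by omega) P hQ
      exact ⟨P', hQ'⟩
  -- basic facts on `TR`
  have hTR0 : ∀ n b, TR n b → 0 ≤ n ∧ (n = 0 → b = 0) := by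
    intro n b hT
    obtain ⟨P, hQ⟩ := hmod (max 1 b) (le_max_left _ _)
    obtain ⟨G, hG⟩ := exists_twist P.M P.conn (max 1 b) (by positivity)
    obtain ⟨α, h1, h2⟩ := (hTR _ P hQ G hG n b (le_max_right _ _)).mpr hT
    obtain ⟨o, ho1, ho2, ho3⟩ := hG.orig
    by_cases hα : α = o
    · subst hα; constructor
      · omega
      · intro _; omega
    · have := ho3 α hα
      constructor
      · omega
      · intro _; omega
  -- a priori bound
  obtain ⟨c, hc⟩ := kos_bounded h xs hxs hspan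
  have hprior : ∃ C : ℝ, 1 ≤ C ∧ ∀ n b, TR n b → (b : ℝ) ≤ C * n := by
    refine ⟨max 1 (c : ℝ), le_max_left _ _, ?_⟩
    intro n b hT
    obtain ⟨P, hQ⟩ := hmod (max 1 b) (le_max_left _ _)
    obtain ⟨G, hG⟩ := exists_twist P.M P.conn (max 1 b) (by positivity)
    have := step1 p 0 h xs hxs hspan P.π G (max 1 b) hG 0 le_rfl (max 1 (c:ℝ)) (le_max_left _ _)
      ?_ ?_ n b (le_max_right _ _) ((hTR _ P hQ G hG n b (le_max_right _ _)).mpr hT)
    · simpa using this
    · intro n' m' hm' hlt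
      refine hS0 _ P hQ G hG n' m' hm' ?_
      intro h0
      have h1 : n' = 0 := congrArg Prod.fst h0
      have h2 : m' = 0 := congrArg Prod.snd h0
      subst h1 h2
      simp at hlt
    · intro l m hl hv
      have hm : m ≤ c := by
        by_contra hcon
        exact hv (hc l m (by omega))
      have hm' : (m : ℝ) ≤ c := by exact_mod_cast hm
      have hl' : (1 : ℝ) ≤ l := by exact_mod_cast hl
      have h1 : (c : ℝ) ≤ max 1 (c : ℝ) := le_max_right _ _
      have h2 : (1 : ℝ) ≤ max 1 (c : ℝ) := le_max_left _ _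
      simp only [pow_zero, Nat.cast_one]
      nlinarith
  -- the key improvement
  obtain ⟨C, hC1, hC⟩ := hprior
  set N : ℝ := (xs.length : ℝ) with hN
  have hN0 : 0 ≤ N := by positivity
  have hq2 : (2 : ℝ) ≤ ((p ^ e : ℕ) : ℝ) := by
    have h1 : 2 ≤ p ^ e := le_trans hp.out.two_le (Nat.le_self_pow (by omega) p)
    exact_mod_cast h1
  have himp : ∀ σ : ℝ, 1 ≤ σ → (∀ n b, TR n b → (b : ℝ) ≤ σ * n) →
      ∀ ρ : ℝ, 1 ≤ ρ → σ - (σ - 1 / 2) / (N + 1) ≤ ρ → ∀ n b, TR n b → (b : ℝ) ≤ ρ * n + r := by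
    intro σ hσ hb ρ hρ hρσ n b hT
    obtain ⟨P, hQ⟩ := hmod (max 1 b) (le_max_left _ _)
    obtain ⟨G, hG⟩ := exists_twist P.M P.conn (max 1 b) (by positivity)
    refine step1 p e h xs hxs hspan P.π G (max 1 b) hG r hr ρ hρ
      ?_ ?_ n b (le_max_right _ _) ((hTR _ P hQ G hG n b (le_max_right _ _)).mpr hT)
    · intro n' m' hm' hlt
      exact hS _ P hQ G hG n' m' hm' hlt
    · intro l m hl hv
      have hl' : (1 : ℝ) ≤ l := by exact_mod_cast hl
      -- length bound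
      have hlen : (l : ℝ) ≤ N := by
        by_contra hcon
        push Not at hcon
        have h1 : (xs.length : ℤ) < l := by
          have : ((xs.length : ℤ) : ℝ) < l := by simpa [hN] using hcon
          exact_mod_cast this
        apply hv
        intro x hx _
        have h2 : (kosR xs hxs).gr l m = ⊥ := kos_length xs hxs l m h1
        have h3 : x ∈ (kosR xs hxs).gr l m := hx
        rw [h2] at h3
        have h4 : x = 0 := h3
        exact ⟨0, AddSubgroup.zero_mem _, by rw [map_zero, h4]⟩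
      -- degree bound
      have hdeg : (m : ℝ) ≤ 2 * σ * l := by
        by_contra hcon
        push Not at hcon
        obtain ⟨P', hQ', hs'⟩ := exists_model h xs hxs hspan hnd hli TR hTR σ hσ hb (max 1 m)
          (le_max_left _ _)
        exact hv (tau_bound hxs P' hQ' σ hσ hs' l m hl (le_max_right _ _) hcon)
      set q : ℝ := ((p ^ e : ℕ) : ℝ) with hqdef
      -- (2 σ l + q - 1) ≤ q (σ l + 1/2) ≤ q ρ (l + 1)
      have h1 : (m : ℝ) + q - 1 ≤ q * (σ * l + 1 / 2) := by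
        have h0 : 0 ≤ σ * l - 1 / 2 := by nlinarith
        have h00 : 0 ≤ (q - 2) * (σ * l - 1 / 2) := mul_nonneg (by linarith) h0
        linarith
      have h2 : σ * l + 1 / 2 ≤ ρ * (l + 1) := by
        have h3 : (σ - 1 / 2) / (N + 1) ≤ (σ - 1 / 2) / (l + 1) := by
          apply div_le_div_of_nonneg_left <;> linarith
        have h4 : (σ - 1 / 2) / (l + 1) * (l + 1) = σ - 1 / 2 := by
          field_simp
        nlinarith
      have h5 : q * (σ * l + 1 / 2) ≤ q * (ρ * (l + 1)) :=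
        mul_le_mul_of_nonneg_left h2 (by linarith)
      linarith
  -- the optimal slope
  by_contra hcon
  push Not at hcon
  set S : Set ℝ := {σ | 1 ≤ σ ∧ ∀ n b, TR n b → (b : ℝ) ≤ σ * n} with hSdef
  have hSne : S.Nonempty := ⟨C, hC1, hC⟩
  have hSbd : BddBelow S := ⟨1, fun σ hσ => hσ.1⟩
  set σ := sInf S with hσdef
  have hσ1 : 1 ≤ σ := le_csInf hSne fun x hx => hx.1
  have hσb : ∀ n b, TR n b → (b : ℝ) ≤ σ * n := by
    intro n b hT
    have hn := (hTR0 n b hT).1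
    rcases hn.eq_or_lt with h0 | h0
    · have := (hTR0 n b hT).2 h0.symm
      rw [this, ← h0]; simp
    · have hn' : (0 : ℝ) < n := by exact_mod_cast h0
      have : (b : ℝ) / n ≤ σ := by
        apply le_csInf hSne
        intro x hx
        rw [div_le_iff₀ hn']
        exact hx.2 n b hT
      rwa [div_le_iff₀ hn'] at this
  have hn0 : 1 ≤ n := by
    have h1 := hTR0 n b hnb
    by_contra h2
    have : n = 0 := by omega
    have := h1.2 this
    omega
  have hσgt : 1 < σ := by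
    have h1 := hσb n b hnb
    have h2 : (n : ℝ) < b := by exact_mod_cast hcon
    have h3 : (1 : ℝ) ≤ n := by exact_mod_cast hn0
    by_contra h4
    have : σ = 1 := le_antisymm (not_lt.mp h4) hσ1
    rw [this] at h1
    linarith
  -- the improved slope
  set ρ := max 1 (σ - (σ - 1 / 2) / (N + 1)) with hρdef
  have hρlt : ρ < σ := by
    apply max_lt hσgt
    have : 0 < (σ - 1 / 2) / (N + 1) := by apply div_pos <;> linarith
    linarith
  have hρb := himp σ hσ1 hσb ρ (le_max_left _ _) (le_max_right _ _)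
  have hρ1 : 1 ≤ ρ := le_max_left _ _
  -- the supremum is attained
  have hatt : ∃ n0 b0, TR n0 b0 ∧ 1 ≤ n0 ∧ (b0 : ℝ) = σ * n0 := by
    by_contra hno
    push Not at hno
    -- choose K large
    obtain ⟨K, hK⟩ := exists_nat_gt (r / ((σ - ρ) / 2))
    have hd : 0 < (σ - ρ) / 2 := by linarith
    have hK' : r < (σ - ρ) / 2 * K := by
      rw [div_lt_iff₀ hd] at hK; linarith
    -- finite set of pairs with n ≤ K
    have hfin : Set.Finite {x : ℤ × ℤ | TR x.1 x.2 ∧ 1 ≤ x.1 ∧ x.1 ≤ K} := by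
      apply Set.Finite.subset (s := (Set.Icc (1:ℤ) K) ×ˢ (Set.Icc (-(1:ℤ)) (⌈C * K⌉)))
      · exact (Set.finite_Icc _ _).prod (Set.finite_Icc _ _)
      · rintro ⟨n1, b1⟩ ⟨h1, h2, h3⟩
        refine ⟨⟨h2, h3⟩, ?_, ?_⟩
        · -- b1 ≥ -1
          obtain ⟨P, hQ⟩ := hmod (max 1 b1) (le_max_left _ _)
          obtain ⟨G, hG⟩ := exists_twist P.M P.conn (max 1 b1) (by positivity)
          obtain ⟨α, h4, h5⟩ := (hTR _ P hQ G hG n1 b1 (le_max_right _ _)).mpr h1
          have := G.j_nonneg α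
          simp only at h4 h5 ⊢
          omega
        · have h4 := hC n1 b1 h1
          have h5 : (n1 : ℝ) ≤ K := by exact_mod_cast h3
          have h6 : (b1 : ℝ) ≤ C * K := by nlinarith
          have h7 : C * K ≤ (⌈C * K⌉ : ℤ) := Int.le_ceil _
          have h8 : (b1 : ℝ) ≤ ((⌈C * K⌉ : ℤ) : ℝ) := le_trans h6 h7
          exact_mod_cast h8
    obtain ⟨τ, hτ1, hτ2⟩ : ∃ τ : ℝ, τ < σ ∧ ∀ x : ℤ × ℤ, TR x.1 x.2 → 1 ≤ x.1 → x.1 ≤ K →
        (x.2 : ℝ) ≤ τ * x.1 := by
      have hlt : ∀ x ∈ {x : ℤ × ℤ | TR x.1 x.2 ∧ 1 ≤ x.1 ∧ x.1 ≤ K}, (x.2 : ℝ) / x.1 < σ := by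
        rintro ⟨n1, b1⟩ ⟨h1, h2, h3⟩
        have h4 : (0 : ℝ) < n1 := by
          have : (1 : ℝ) ≤ n1 := by exact_mod_cast h2
          linarith
        have h5 := hσb n1 b1 h1
        have h6 := hno n1 b1 h1 h2
        rw [div_lt_iff₀ h4]
        exact lt_of_le_of_ne h5 h6
      obtain ⟨τ, hτ⟩ := hfin.exists_finset_coe
      by_cases hne : τ.Nonempty
      · refine ⟨τ.sup' hne (fun x => (x.2 : ℝ) / x.1), ?_, ?_⟩
        · rw [Finset.sup'_lt_iff]
          intro x hx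
          apply hlt
          rw [← hτ]; exact hx
        · intro x h1 h2 h3
          have h4 : (0 : ℝ) < x.1 := by
            have : (1 : ℝ) ≤ x.1 := by exact_mod_cast h2
            linarith
          rw [← div_le_iff₀ h4]
          apply Finset.le_sup' (fun x : ℤ × ℤ => (x.2 : ℝ) / x.1)
          have : x ∈ (τ : Set (ℤ × ℤ)) := by rw [hτ]; exact ⟨h1, h2, h3⟩
          exact this
      · refine ⟨0, by linarith, ?_⟩
        intro x h1 h2 h3
        exfalso
        apply hne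
        have : x ∈ (τ : Set (ℤ × ℤ)) := by rw [hτ]; exact ⟨h1, h2, h3⟩
        exact ⟨x, this⟩
    -- a smaller slope
    have hmem : max (max 1 τ) ((σ + ρ) / 2) ∈ S := by
      refine ⟨le_trans (le_max_left _ _) (le_max_left _ _), ?_⟩
      intro n1 b1 h1
      have hn := (hTR0 n1 b1 h1).1
      rcases hn.eq_or_lt with h0 | h0
      · have := (hTR0 n1 b1 h1).2 h0.symm
        rw [this, ← h0]; simp
      · have hn' : (1 : ℝ) ≤ n1 := by exact_mod_cast h0
        by_cases hle : n1 ≤ K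
        · have h2 := hτ2 (n1, b1) h1 h0 hle
          simp only at h2
          have h3 : τ ≤ max (max 1 τ) ((σ + ρ) / 2) := le_trans (le_max_right _ _) (le_max_left _ _)
          nlinarith
        · push Not at hle
          have h2 := hρb n1 b1 h1
          have h3 : (σ + ρ) / 2 ≤ max (max 1 τ) ((σ + ρ) / 2) := le_max_right _ _
          have h4 : (K : ℝ) ≤ n1 := by exact_mod_cast hle.le
          have h5 : (σ - ρ) / 2 * K ≤ (σ - ρ) / 2 * n1 := mul_le_mul_of_nonneg_left h4 hd.le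
          have h6 : (b1 : ℝ) ≤ (σ + ρ) / 2 * n1 := by nlinarith
          nlinarith
    have hle := csInf_le hSbd hmem
    have hlt : max (max 1 τ) ((σ + ρ) / 2) < σ := by
      apply max_lt (max_lt hσgt hτ1)
      linarith
    linarith
  obtain ⟨n0, b0, hT0, hn01, hext⟩ := hatt
  have hb0pos : 1 ≤ b0 := by
    have h1 : (1 : ℝ) ≤ n0 := by exact_mod_cast hn01
    have : (0 : ℝ) < b0 := by rw [hext]; positivity
    have : 0 < b0 := by exact_mod_cast this
    omega
  -- choose m0 with r < (σ - ρ) * m0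
  obtain ⟨m0, hm0⟩ := exists_nat_gt (r / (σ - ρ))
  have hd : 0 < σ - ρ := by linarith
  have hm0' : r < (σ - ρ) * m0 := by
    rw [div_lt_iff₀ hd] at hm0; linarith
  set J : ℤ := max (p * b0) (2 * b0 * m0) with hJdef
  have hp2 : (2 : ℤ) ≤ p := by exact_mod_cast hp.out.two_le
  have hJp : (p : ℤ) * b0 ≤ J := le_max_left _ _
  have hJm : 2 * b0 * m0 ≤ J := le_max_right _ _
  have hJ1 : b0 ≤ J := by nlinarith
  obtain ⟨P, hQ, hs⟩ := exists_model h xs hxs hspan hnd hli TR hTR σ hσ1 hσb J (by omega)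
  obtain ⟨G, hG⟩ := exists_twist P.M P.conn J (by omega)
  obtain ⟨v, hv, hv1, hv2⟩ := exists_extremal P G hG σ hσgt hs n0 b0 hn01 hJ1 hext
    ((hTR J P hQ G hG n0 b0 hJ1).mpr hT0)
  -- odd extremal variable of internal degree ≤ 2 b0
  obtain ⟨w, hw, hw1, hw2, hw3⟩ : ∃ w ∈ P.vars, Odd w.1 ∧ (w.2 : ℝ) = σ * (w.1 + 1) ∧
      w.2 ≤ 2 * b0 := by
    rcases Int.even_or_odd v.1 with hev | hod
    · have hpv : (p : ℤ) * v.2 ≤ J := by
        have h1 : (p : ℤ) * v.2 ≤ p * b0 := by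
          apply mul_le_mul_of_nonneg_left hv2; omega
        omega
      have := even_excl p P hQ σ hσgt hs v hv hev hv1 hpv
      refine ⟨_, this, ?_, ?_, ?_⟩
      · exact ⟨v.1, by ring⟩
      · push_cast
        rw [hv1]; ring
      · simp only; omega
    · exact ⟨v, hv, hod, hv1, by omega⟩
  have hwle := P.vars_le w hw
  have hHas := odd_persist P G hG σ hσgt hs w hw hw1 hw2 m0 (by
    have h1 : (m0 : ℤ) * w.2 ≤ m0 * (2 * b0) := by
      apply mul_le_mul_of_nonneg_left hw3; positivity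
    have h2 : (m0 : ℤ) * (2 * b0) = 2 * b0 * m0 := by ring
    omega)
  have hmJ : (m0 : ℤ) * w.2 ≤ J := by
    have h1 : (m0 : ℤ) * w.2 ≤ m0 * (2 * b0) := by
      apply mul_le_mul_of_nonneg_left hw3; positivity
    have h2 : (m0 : ℤ) * (2 * b0) = 2 * b0 * m0 := by ring
    omega
  have hT := (hTR J P hQ G hG _ _ hmJ).mp hHas
  have hfin := hρb _ _ hT
  push_cast at hfin
  rw [hw2] at hfin
  have hw1' : (1 : ℝ) ≤ w.1 := by exact_mod_cast hwle.1
  have hm0nn : (0 : ℝ) ≤ m0 := by positivity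
  -- m0 σ (i+1) ≤ ρ m0 (i+1) + r
  have h1 : (σ - ρ) * m0 * (w.1 + 1) ≤ r := by nlinarith
  have h2 : (σ - ρ) * m0 ≤ (σ - ρ) * m0 * (w.1 + 1) := by
    have : 0 ≤ (σ - ρ) * m0 := by positivity
    nlinarith
  linarith

/-- **Main theorem.** -/
theorem main (p : ℕ) [hp : Fact p.Prime] [CharP k p] (h : StdGraded 𝒜) (e : ℕ) (he : 1 ≤ e)
    [ExpChar R p]
    (hreg : ∃ (F : GrFreeRes 𝒜 (verSub 𝒜 p e) (verSubGr 𝒜 p e)) (r : ℕ),
      ∀ (n : ℕ) (m : ℤ), (n : ℤ) + r < m → F.TorVan n m) :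
    Nonempty (GrFreeRes 𝒜 (R ⧸ irr 𝒜) (resGr 𝒜)) ∧
    ∀ F : GrFreeRes 𝒜 (R ⧸ irr 𝒜) (resGr 𝒜), ∀ (n : ℕ) (m : ℤ), m ≠ n → F.TorVan n m := by
  have : Nontrivial R := h.nontriv
  have : CharP R p := charP_of_injective_algebraMap (algebraMap k R).injective p
  obtain ⟨xs, hxs, hspan, hnd, hli⟩ := exists_gens h
  have hneg : ∀ j, j < 0 → resGr 𝒜 j = ⊥ := by
    intro j hj
    rw [resGr, if_neg (by omega)]
  refine ⟨exists_res _ _ (fun i j a x => resGr_smul h i j a x) hneg, ?_⟩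
  intro F
  obtain ⟨F0, r, hF0⟩ := hreg
  -- models
  have hmod : ∀ J : ℤ, 1 ≤ J → ∃ P : PreModel 𝒜 xs J, (∀ m, m ≤ J → QuasiAt P.π m) := by
    intro J hJ
    induction J, hJ using Int.leInduction with
    | base =>
      obtain ⟨P, hP, hQ⟩ := model_init h xs hxs hspan hnd hli
      exact ⟨P, hQ⟩
    | succ J hJ ih =>
      obtain ⟨P0, hQ0⟩ := ih
      have key : ∀ J' : ℤ, J' = J → ∃ P : PreModel 𝒜 xs J', (∀ m, m ≤ J' → QuasiAt P.π m) := by
        rintro J' rfl; exact ⟨P0, hQ0⟩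
      obtain ⟨P, hQ⟩ := key (J + 1 - 1) (by ring)
      obtain ⟨P', hQ', hv⟩ := model_stage h xs (J + 1) (by omega) P hQ
      exact ⟨P', hQ'⟩
  -- the `Tor` predicate
  let TR : ℤ → ℤ → Prop := fun n m => 0 ≤ n ∧ ¬ F.TorVan n.toNat m
  have hTR : ∀ (J : ℤ) (P : PreModel 𝒜 xs J) (_ : ∀ m, m ≤ J → QuasiAt P.π m) (G : Twist P.M)
      (_ : G.IsRes J) (n b : ℤ), b ≤ J → (G.Has n b ↔ TR n b) := by
    intro J P hQ G hG n b hb
    constructor
    · intro hH
      have hn : 0 ≤ n := by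
        obtain ⟨α, h1, h2⟩ := hH
        rw [← h1]; exact G.n_nonneg α
      refine ⟨hn, ?_⟩
      rw [link P.π J hQ G hG _ _ (fun i j a x => resGr_smul h i j a x) hneg F n.toNat b hb,
        link_res h P.π G, Int.toNat_of_nonneg hn]
      exact not_not.mpr hH
    · rintro ⟨hn, hT⟩
      rw [link P.π J hQ G hG _ _ (fun i j a x => resGr_smul h i j a x) hneg F n.toNat b hb,
        link_res h P.π G, Int.toNat_of_nonneg hn] at hT
      exact not_not.mp hT
  have hneg' : ∀ j, j < 0 → verSubGr 𝒜 p e j = ⊥ := by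
    intro j hj
    rw [eq_bot_iff]
    intro x hx
    have h1 : (x : FrobR R p e) ∈ grZ 𝒜 ((p ^ e : ℕ) * j) := hx
    have h2 : (((p ^ e : ℕ) : ℤ)) * j < 0 := by
      have : 0 < p ^ e := pow_pos hp.out.pos e
      have h3 : (0 : ℤ) < ((p ^ e : ℕ) : ℤ) := by exact_mod_cast this
      nlinarith
    rw [grZ, if_neg (by omega)] at h1
    have h3 : (x : FrobR R p e) = 0 := h1
    exact Subtype.ext h3
  have main := main_abs p h xs hxs hspan hnd hli TR hTR e he r (by positivity) ?_ ?_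
  · -- conclusion
    intro n m hmn
    by_contra hT
    have h1 : TR n m := ⟨by positivity, by simpa using hT⟩
    have h2 := main n m h1
    -- lower bound
    obtain ⟨P, hQ⟩ := hmod (max 1 m) (le_max_left _ _)
    obtain ⟨G, hG⟩ := exists_twist P.M P.conn (max 1 m) (by positivity)
    obtain ⟨α, h3, h4⟩ := (hTR _ P hQ G hG n m (le_max_right _ _)).mpr h1
    obtain ⟨o, ho1, ho2, ho3⟩ := hG.orig
    by_cases hα : α = o
    · subst hα; omega
    · have := ho3 α hα; omega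
  · intro J P hQ G hG n m hm hlt
    by_cases hn : 0 ≤ n
    · have h1 : F0.TorVan n.toNat m := by
        apply hF0
        rw [Int.toNat_of_nonneg hn]
        have : ((n + (r : ℤ) : ℤ) : ℝ) < m := by push_cast; exact_mod_cast hlt
        exact_mod_cast this
      rw [link P.π J hQ G hG _ _ (fun i j a x => verSubGr_smul p e i j a x) hneg' F0 n.toNat m hm,
        link_ver p e P.π G, Int.toNat_of_nonneg hn] at h1
      exact h1
    · apply tens_van
      intro α x hx _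
      have h1 : x ∈ (DGMod.ver P.π p e 0 (DGMod.self (ofRing 𝒜))).gr (n - G.n α) (m - G.j α) := hx
      have h2 : x = 0 := by
        have h3 := G.n_nonneg α
        exact (ofRing 𝒜).neg_left (i := n - G.n α) (by omega) h1
      exact ⟨0, AddSubgroup.zero_mem _, by rw [map_zero, h2]⟩
  · intro J P hQ G hG n m hm hnm
    rw [tens_ver_zero]
    exact tens_R P.π J hQ G hG n m hm hnm

end FV
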