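import Pool.Agent.helper92.FV.LES
import Pool.Agent.helper37.FV.F1

/-! # MP_51fbee_al, module SQ1 : surjective quasi-isomorphisms -/

namespace FV

universe u

variable {k : Type u} [Field k]

/-- general criterion at one internal degree -/
lemma SQ1_bdg {C1 C2 : BDG.{u}} (φ : C1.X →+ C2.X) (b : ℤ)
    (hmem : ∀ n, ∀ x ∈ C1.gr n b, φ x ∈ C2.gr n b)
    (hD : ∀ x, C2.D (φ x) = φ (C1.D x))
    (hsurj : ∀ n, ∀ y ∈ C2.gr n b, ∃ x ∈ C1.gr n b, φ x = y)
    (hker : ∀ n, ∀ x ∈ C1.gr n b, φ x = 0 → C1.D x = 0 →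
      ∃ y ∈ C1.gr (n + 1) b, φ y = 0 ∧ C1.D y = x) (n : ℤ) :
    C1.Van n b ↔ C2.Van n b := by
  constructor
  · intro h y hy hDy
    obtain ⟨x, hx, rfl⟩ := hsurj n y hy
    have h1 : φ (C1.D x) = 0 := by rw [← hD, hDy]
    obtain ⟨w, hw, hφw, hDw⟩ := hker (n - 1) (C1.D x) (C1.D_mem hx) h1 (C1.D_D x)
    rw [sub_add_cancel] at hw
    obtain ⟨t, ht, hDt⟩ := h (x - w) (AddSubgroup.sub_mem _ hx hw)
      (by rw [map_sub, hDw, sub_self])
    exact ⟨φ t, hmem _ t ht, by rw [hD, hDt, map_sub, hφw, sub_zero]⟩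
  · intro h x hx hDx
    obtain ⟨s, hs, hDs⟩ := h (φ x) (hmem n x hx) (by rw [hD, hDx, map_zero])
    obtain ⟨t, ht, rfl⟩ := hsurj (n + 1) s hs
    have hDt : C1.D t ∈ C1.gr n b := by
      have := C1.D_mem ht
      rwa [add_sub_cancel_right] at this
    obtain ⟨w, hw, hφw, hDw⟩ := hker n (x - C1.D t) (AddSubgroup.sub_mem _ hx hDt)
      (by rw [map_sub, ← hD, hDs, sub_self]) (by rw [map_sub, hDx, C1.D_D, sub_self])
    exact ⟨t + w, AddSubgroup.add_mem _ ht hw, by rw [map_add, hDw]; abel⟩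

theorem SQI.bdg_iff {M : DGA k} {X Y : DGMod M} {J : ℤ} (S : SQI X Y J)
    (n b : ℤ) (hb : b ≤ J) : X.bdg.Van n b ↔ Y.bdg.Van n b :=
  SQ1_bdg (C1 := X.bdg) (C2 := Y.bdg) S.φ b (fun n => S.φ_mem n b) S.φ_d
    (fun n => S.surj n b hb) (fun n => S.ker n b hb) n

/-- the kernel, as a DG module with the same carrier but smaller graded pieces -/
def SQ1_ker {M : DGA k} {X Y : DGMod M} {J : ℤ} (S : SQI X Y J) : DGMod M where
  N := X.N
  d := X.d
  gr n m := X.gr n m ⊓ S.φ.ker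
  smul_mem := by
    intro i j i' j' a x ha hx
    refine ⟨X.smul_mem ha hx.1, ?_⟩
    have hx2 : S.φ x = 0 := hx.2
    show S.φ (a • x) = 0
    rw [S.φ_smul, hx2, smul_zero]
  d_mem := by
    intro i j x hx
    refine ⟨X.d_mem hx.1, ?_⟩
    have hx2 : S.φ x = 0 := hx.2
    show S.φ (X.d x) = 0
    rw [← S.φ_d, hx2, map_zero]
  d_d := X.d_d
  d_smul := X.d_smul

/-- `G ⊗ -` preserves quasi-isomorphisms. -/
theorem SQI.tens_iff {M : DGA k} (G : Twist M) {X Y : DGMod M} {J : ℤ} (S : SQI X Y J)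
    (n b : ℤ) (hb : b ≤ J) : (G.tens X).Van n b ↔ (G.tens Y).Van n b := by
  have hker : ∀ n, ((G.tens (SQ1_ker S)).Van n b) := by
    intro n
    apply tens_van
    intro α x hx hDx
    have hj := G.j_nonneg α
    obtain ⟨y, hy, hφy, hDy⟩ := S.ker _ _ (by omega) x hx.1 hx.2 hDx
    exact ⟨y, ⟨hy, hφy⟩, hDy⟩
  let φ : (G.tens X).X →+ (G.tens Y).X :=
    { toFun := fun x α => S.φ (x α)
      map_zero' := by
        funext α
        show S.φ 0 = 0
        exact map_zero _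
      map_add' := fun x y => by
        funext α
        show S.φ (x α + y α) = S.φ (x α) + S.φ (y α)
        exact map_add _ _ _ }
  refine SQ1_bdg φ b ?_ ?_ ?_ ?_ n
  · intro n x hx α
    exact S.φ_mem _ _ _ (hx α)
  · intro x
    funext β
    show sg (G.n β) • Y.d (S.φ (x β)) + ∑ α, G.c β α • S.φ (x α)
      = S.φ (sg (G.n β) • X.d (x β) + ∑ α, G.c β α • x α)
    rw [map_add, map_zsmul, map_sum, S.φ_d]
    simp only [S.φ_smul]
  · intro n y hy
    have h1 : ∀ α, ∃ x ∈ X.gr (n - G.n α) (b - G.j α), S.φ x = y α := fun α =>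
      S.surj _ _ (by have := G.j_nonneg α; omega) _ (hy α)
    choose x hx hφx using h1
    exact ⟨x, hx, funext hφx⟩
  · intro n x hx hφx hDx
    obtain ⟨y, hy, hDy⟩ := hker n x (fun α => ⟨hx α, congrFun hφx α⟩) hDx
    exact ⟨y, fun α => (hy α).1, funext fun α => (hy α).2, hDy⟩

theorem SQI.trans {M : DGA k} {X Y Z : DGMod M} {J : ℤ} (S : SQI X Y J) (T : SQI Y Z J) :
    Nonempty (SQI X Z J) := by
  refine ⟨{
    φ := T.φ.comp S.φ
    φ_mem := fun n m x hx => T.φ_mem n m _ (S.φ_mem n m x hx)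
    φ_d := ?_
    φ_smul := ?_
    surj := ?_
    ker := ?_ }⟩
  · intro x
    show Z.d (T.φ (S.φ x)) = T.φ (S.φ (X.d x))
    rw [T.φ_d, S.φ_d]
  · intro r x
    show T.φ (S.φ (r • x)) = r • T.φ (S.φ x)
    rw [S.φ_smul, T.φ_smul]
  · intro n m hm z hz
    obtain ⟨y, hy, rfl⟩ := T.surj n m hm z hz
    obtain ⟨x, hx, rfl⟩ := S.surj n m hm y hy
    exact ⟨x, hx, rfl⟩
  · intro n m hm x hx h0 hDx
    have h0' : T.φ (S.φ x) = 0 := h0
    obtain ⟨y, hy, hTy, hDy⟩ := T.ker n m hm (S.φ x) (S.φ_mem _ _ _ hx) h0'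
      (by rw [S.φ_d, hDx, map_zero])
    obtain ⟨t, ht, rfl⟩ := S.surj (n + 1) m hm y hy
    have hDt : X.d t ∈ X.gr n m := by
      have := X.d_mem ht
      rwa [add_sub_cancel_right] at this
    obtain ⟨w, hw, hSw, hDw⟩ := S.ker n m hm (x - X.d t) (AddSubgroup.sub_mem _ hx hDt)
      (by rw [map_sub, ← S.φ_d, hDy, sub_self]) (by rw [map_sub, hDx, X.d_d, sub_self])
    refine ⟨t + w, AddSubgroup.add_mem _ ht hw, ?_, ?_⟩
    · show T.φ (S.φ (t + w)) = 0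
      rw [map_add, hSw, add_zero, hTy]
    · rw [map_add, hDw]; abel

theorem SQI.cone {M : DGA k} {X Y : DGMod M} {J : ℤ} (S : SQI X Y J) (x : M.A)
    (hx : x ∈ M.gr 0 1) : Nonempty (SQI (DGMod.cone x hx X) (DGMod.cone x hx Y) J) := by
  let φ : (X.N × X.N) →+ (Y.N × Y.N) := S.φ.prodMap S.φ
  refine ⟨{
    φ := φ
    φ_mem := fun n m p hp => ⟨S.φ_mem _ _ _ hp.1, S.φ_mem _ _ _ hp.2⟩
    φ_d := ?_
    φ_smul := ?_
    surj := ?_
    ker := ?_ }⟩
  · intro (p : X.N × X.N)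
    show (Y.d (S.φ p.1) + x • S.φ p.2, - Y.d (S.φ p.2))
      = (S.φ (X.d p.1 + x • p.2), S.φ (- X.d p.2))
    rw [map_add, S.φ_smul, map_neg, S.φ_d, S.φ_d]
  · intro r (p : X.N × X.N)
    show (S.φ (r • p.1), S.φ (M.ε r • p.2)) = (r • S.φ p.1, M.ε r • S.φ p.2)
    rw [S.φ_smul, S.φ_smul]
  · intro n m hm (q : Y.N × Y.N) hq
    obtain ⟨a, ha, ha'⟩ := S.surj n m hm q.1 hq.1
    obtain ⟨b, hb, hb'⟩ := S.surj (n - 1) (m - 1) (by omega) q.2 hq.2
    exact ⟨(a, b), ⟨ha, hb⟩, Prod.ext ha' hb'⟩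
  · intro n m hm (p : X.N × X.N) hp h0 hDp
    have h01 : S.φ p.1 = 0 := congrArg Prod.fst h0
    have h02 : S.φ p.2 = 0 := congrArg Prod.snd h0
    have hD1 : X.d p.1 + x • p.2 = 0 := congrArg Prod.fst hDp
    have hD2 : - X.d p.2 = 0 := congrArg Prod.snd hDp
    rw [neg_eq_zero] at hD2
    obtain ⟨b, hb, hφb, hDb⟩ := S.ker (n - 1) (m - 1) (by omega) p.2 hp.2 h02 hD2
    -- p.1 - x • b' is a cycle up to sign
    have hx0 : M.d x = 0 := M.neg_left (by norm_num) (M.d_mem hx)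
    have hεx : M.ε x = x := by rw [M.ε_gr hx]; simp
    have hxb : x • b ∈ X.gr n m := by
      have := X.smul_mem hx hb
      rwa [show (0 : ℤ) + (n - 1 + 1) = n by ring, show (1 : ℤ) + (m - 1) = m by ring] at this
    have hcyc : X.d (p.1 + x • b) = 0 := by
      rw [map_add, X.d_smul, hx0, zero_smul, zero_add, hεx, hDb, hD1]
    have hker0 : S.φ (p.1 + x • b) = 0 := by
      rw [map_add, S.φ_smul, h01, hφb, smul_zero, add_zero]
    obtain ⟨a, ha, hφa, hDa⟩ := S.ker n m hm (p.1 + x • b)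
      (AddSubgroup.add_mem _ hp.1 hxb) hker0 hcyc
    have hb' : b ∈ X.gr (n + 1 - 1) (m - 1) := by
      rwa [show n - 1 + 1 = n + 1 - 1 by ring] at hb
    refine ⟨(a, -b), ⟨ha, AddSubgroup.neg_mem _ hb'⟩, ?_, ?_⟩
    · exact Prod.ext hφa (by show S.φ (-b) = 0; rw [map_neg, hφb, neg_zero])
    · show (X.d a + x • (-b), - X.d (-b)) = p
      rw [hDa, map_neg, neg_neg, hDb, smul_neg]
      exact Prod.ext (by show p.1 + x • b + -(x • b) = p.1; abel) rfl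

theorem SQI.kos {M : DGA k} {X Y : DGMod M} {J : ℤ} (S : SQI X Y J) (xs : List M.A)
    (hx : ∀ x ∈ xs, x ∈ M.gr 0 1) : Nonempty (SQI (DGMod.kos xs hx X) (DGMod.kos xs hx Y) J) := by
  induction xs with
  | nil => exact ⟨S⟩
  | cons x xs ih =>
    obtain ⟨T⟩ := ih (fun y hy => hx y (by simp [hy]))
    exact T.cone x (hx x (by simp))

end FV
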